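import Pool.Agent.Lib.H32P.Defs

/-!
# H32R: near-critical integer polynomials with polynomial loss (MP_e31573_nt): definitions

See `PROOF.md` in this folder and `Lib/H32P`.
-/

namespace Pool.Agent.Lib.H32R

open Polynomial MeasureTheory

/-- `∫ log |P| dμ ≥ - c deg P` for every nonzero integer polynomial `P` of degree at most `n`. -/
def AdmN (Y : ℝ → ℝ) (c : ℝ) (n : ℕ) : Prop :=
  ∀ P : ℤ[X], P ≠ 0 → P.natDegree ≤ n →
    -(c * P.natDegree) ≤ ∫ u in (0:ℝ)..1, Real.log |aeval (Y u) P|

/-- All irreducible factors of `P` have degree at most `n`. -/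
def Fac (n : ℕ) (P : ℤ[X]) : Prop := ∀ F : ℤ[X], Irreducible F → F ∣ P → F.natDegree ≤ n

/-- The bounded telescoping function. -/
noncomputable def gg (r : ℝ) : ℝ := min 8 (1 / (40 * r))

/-- The loss (a gain for small `r`) of one scale; `r` is the distance divided by the scale. -/
noncomputable def loss (r : ℝ) : ℝ := if 4 ≤ r then 4 / r else Real.log (2 * r) + 1

end Pool.Agent.Lib.H32R
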