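import Pool.Agent.Lib.H32R.R8
import Pool.Agent.Lib.H32P.F1a
import Pool.Agent.Lib.H32P.B1

/-!
# Chunk F1 (S/M): the dual lattice has no short vectors (copy of `H32P.F1a`, finished, with `r8_dual`)
-/

namespace Pool.Agent.Lib.H32R

open Polynomial MeasureTheory Pool.Agent.Lib.H32P

variable {Y : ℝ → ℝ} {α : ℝ}

theorem f1_dual (hY : Quant Y α) {c₁ : ℝ} (hc : 0 ≤ c₁) {n : ℕ} (hn : 1 ≤ n) (hA : AdmN Y c₁ n)
    (c : ℝ) (l : Fin n → ℤ) (hl : l ≠ 0) :
    (Real.exp (n * (c - c₁) - c₁) / (n * (n ^ 3 * K α n ^ 27))) ^ 2 ≤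
      ∑ i, (((Amat Y n c)⁻¹).transpose.mulVec (fun j => (l j : ℝ)) i) ^ 2 := by
  have hn0 : (0:ℝ) < n := by exact_mod_cast hn
  have hK1 : 1 ≤ K α n := b1_K hY hn
  have hK0 : 0 < K α n := lt_of_lt_of_le one_pos hK1
  set A := Amat Y n c with hAdef
  have hunit : IsUnit A.det := isUnit_iff_ne_zero.2 (f1a_det hY hn c)
  set v : Fin n → ℝ := (A⁻¹).transpose.mulVec (fun j => (l j : ℝ)) with hv
  set L : ℕ → ℤ := fun k => if hk : k < n then l ⟨k, hk⟩ else 0 with hL
  have hL1 : ∀ i : Fin n, L i = l i := by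
    intro i
    simp only [hL, dif_pos i.2]
  set S : ℝ := Real.sqrt (∑ i, v i ^ 2) with hS
  have hS0 : 0 ≤ S := Real.sqrt_nonneg _
  have hSsq : S ^ 2 = ∑ i, v i ^ 2 := Real.sq_sqrt (Finset.sum_nonneg fun i _ => sq_nonneg _)
  have hvS : ∀ i, |v i| ≤ S := by
    intro i
    apply abs_le_of_sq_le_sq _ hS0
    rw [hSsq]
    exact Finset.single_le_sum (f := fun i => v i ^ 2) (fun i _ => sq_nonneg _) (Finset.mem_univ i)
  have hlex : ∃ i < n, L i ≠ 0 := by
    by_contra hcon
    push Not at hcon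
    apply hl
    funext i
    rw [← hL1 i]
    exact hcon i i.2
  have key := r8_dual hY hc hn hA c L hlex (Θ := n * S) (by
    intro u hu hub
    -- `Lf L n u = ∑ v_i (A u)_i`
    have h1 : Lf L n u = ∑ i, v i * A.mulVec (fun j => u.coeff j) i := by
      have h2 : Lf L n u = (fun j : Fin n => (l j : ℝ)) ⬝ᵥ (fun j => u.coeff j) := by
        rw [Lf, Finset.sum_range, dotProduct]
        apply Finset.sum_congr rfl
        intro i _
        rw [hL1 i, mul_comm]
      have h3 : (fun j : Fin n => u.coeff j) = (A⁻¹).mulVec (A.mulVec (fun j => u.coeff j)) := by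
        rw [Matrix.mulVec_mulVec, Matrix.nonsing_inv_mul _ hunit, Matrix.one_mulVec]
      rw [h2, h3, Matrix.dotProduct_mulVec, ← Matrix.mulVec_transpose, ← h3]
      rfl
    have h4 : ∀ i, |A.mulVec (fun j => u.coeff j) i| ≤ 1 := by
      intro i
      have hmem : pt Y n (1 / 2) i ∈ Set.Icc (0:ℝ) 1 := b1_pt_mem hY ⟨by norm_num, by norm_num⟩ i.2
      have h5 : A.mulVec (fun j => u.coeff j) i =
          u.eval (pt Y n (1 / 2) i) * Real.exp (-(n * (c + U Y (pt Y n (1 / 2) i)))) := by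
        have e : u.eval (pt Y n (1 / 2) i) = ∑ j ∈ Finset.range n, u.coeff j * (pt Y n (1 / 2) i) ^ j := by
          by_cases h0 : u = 0
          · rw [h0]; simp
          · exact eval_eq_sum_range' ((natDegree_lt_iff_degree_lt h0).2 hu) _
        rw [e, Finset.sum_range, Finset.sum_mul]
        simp only [Matrix.mulVec, dotProduct, hAdef, Amat, Matrix.of_apply]
        apply Finset.sum_congr rfl
        intro j _
        ring
      rw [h5, abs_mul, abs_of_pos (Real.exp_pos _), Real.exp_neg, ← div_eq_mul_inv, div_le_one (Real.exp_pos _)]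
      exact hub _ hmem
    rw [h1]
    refine (Finset.abs_sum_le_sum_abs _ _).trans ?_
    refine (Finset.sum_le_card_nsmul _ _ S (fun i _ => ?_)).trans ?_
    · rw [abs_mul]
      calc |v i| * |A.mulVec (fun j => u.coeff j) i| ≤ S * 1 :=
            mul_le_mul (hvS i) (h4 i) (abs_nonneg _) hS0
        _ = S := mul_one _
    · simp)
  rw [← hSsq]
  apply pow_le_pow_left₀ (by positivity)
  rw [div_le_iff₀ (by positivity)]
  calc Real.exp (n * (c - c₁) - c₁) ≤ n * S * (n ^ 3 * K α n ^ 27) := key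
    _ = S * (n * (n ^ 3 * K α n ^ 27)) := by ring

end Pool.Agent.Lib.H32R
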