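import Pool.Agent.Lib.H32P.Defs

/-!
# Chunk T2 (M): Babai's nearest plane for an upper triangular matrix (compare `H32P.E8`, finished)

`(R x)_l = R_ll x_l + ∑_{p > l} R_lp x_p`. Choose the integers `x_l` recursively from the last index to the first: `x_l = round ((s_l - ∑_{p>l} R_lp x_p)/R_ll)` (`abs_sub_round`). (Induction on `n` with the last row and column, or strong recursion on `n - 1 - l`.)
-/

namespace Pool.Agent.Lib.H32R

theorem t2_update {n : ℕ} (R : Matrix (Fin n) (Fin n) ℝ) (x : Fin n → ℤ) (m : Fin n) (c : ℤ) (l : Fin n) :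
    R.mulVec (fun j => ((Function.update x m c j : ℤ) : ℝ)) l =
      R.mulVec (fun j => ((Function.update x m 0 j : ℤ) : ℝ)) l + R l m * c := by
  have e : (fun j => ((Function.update x m c j : ℤ) : ℝ)) =
      (fun j => ((Function.update x m 0 j : ℤ) : ℝ)) + Pi.single m (c : ℝ) := by
    ext j
    by_cases h : j = m
    · subst h
      simp
    · simp [h]
  rw [e, Matrix.mulVec_add]
  simp [Matrix.mulVec]

theorem t2_step {n : ℕ} (R : Matrix (Fin n) (Fin n) ℝ) (htri : ∀ i j : Fin n, j < i → R i j = 0)
    (hpos : ∀ i, 0 < R i i) (s : Fin n → ℝ) (m : ℕ) :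
    ∃ x : Fin n → ℤ, ∀ l : Fin n, n ≤ (l : ℕ) + m →
      |R.mulVec (fun j => (x j : ℝ)) l - s l| ≤ R l l / 2 := by
  induction m with
  | zero => exact ⟨0, fun i hi => absurd hi (by have := i.2; omega)⟩
  | succ m ih =>
    obtain ⟨x, hx⟩ := ih
    by_cases hm : m < n
    · have hk' : n - 1 - m < n := by omega
      set k : Fin n := ⟨n - 1 - m, hk'⟩ with hk
      set a : ℝ := R.mulVec (fun j => ((Function.update x k 0 j : ℤ) : ℝ)) k with ha
      have hRk := hpos k
      set c : ℤ := round ((s k - a) / R k k) with hc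
      refine ⟨Function.update x k c, fun l hl => ?_⟩
      by_cases hlk : l = k
      · rw [hlk, t2_update, ← ha]
        have h1 := abs_sub_round ((s k - a) / R k k)
        rw [← hc] at h1
        have h2 : a + R k k * c - s k = -(R k k * ((s k - a) / R k k - c)) := by
          field_simp
          ring
        rw [h2, abs_neg, abs_mul, abs_of_pos hRk]
        nlinarith
      · have hlt : k < l := by
          rw [Fin.lt_def]
          have h1 : (l : ℕ) ≠ n - 1 - m := fun h => hlk (Fin.ext h)
          show n - 1 - m < (l : ℕ)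
          omega
        have hR0 : R l k = 0 := htri l k hlt
        have e1 : R.mulVec (fun j => ((Function.update x k c j : ℤ) : ℝ)) l =
            R.mulVec (fun j => (x j : ℝ)) l := by
          have h1 := t2_update R x k c l
          have h2 := t2_update R x k (x k) l
          rw [hR0, zero_mul, add_zero] at h1 h2
          rw [h1, ← h2, Function.update_eq_self]
        rw [e1]
        refine hx l ?_
        rw [Fin.lt_def] at hlt
        have : n - 1 - m < (l : ℕ) := hlt
        omega
    · exact ⟨x, fun l _ => hx l (by omega)⟩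

theorem t2_plane {n : ℕ} (R : Matrix (Fin n) (Fin n) ℝ) (htri : ∀ i j : Fin n, j < i → R i j = 0)
    (hpos : ∀ i, 0 < R i i) (s : Fin n → ℝ) :
    ∃ x : Fin n → ℤ, ∀ l, |R.mulVec (fun j => (x j : ℝ)) l - s l| ≤ R l l / 2 := by
  obtain ⟨x, hx⟩ := t2_step R htri hpos s n
  exact ⟨x, fun l => hx l (Nat.le_add_left _ _)⟩

end Pool.Agent.Lib.H32R
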