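import Pool.Agent.Lib.H32R.T1
import Pool.Agent.Lib.H32R.T2
import Pool.Agent.Lib.H32P.E5
import Pool.Agent.Lib.H32P.E6
import Pool.Agent.Lib.H32P.E9

/-!
# Chunk T3 (M): transference with polynomial loss (compare `H32P.E9`, finished)

`n = 0` trivial. `A T = Q R` from `e5_hkz` (for `V = A`), `R = Qᵀ A T`, so `(R⁻¹)ᵀ = Qᵀ (A⁻¹)ᵀ (T⁻¹)ᵀ` and for an integer vector `w ≠ 0`: `∑ ((R⁻¹)ᵀ w)² = ∑ ((A⁻¹)ᵀ w')²` with `w' = (T⁻¹)ᵀ w ≠ 0` an integer vector (`e9_orth` for `Qᵀ`), so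
`t1_dualblock` applies to `R`; `e6_block` with `e = n - 1 - i` gives `log R_ii ≤ (∑_{l≥i} log R_ll)/d + log d/2`, `d = n - i`. Adding: `log R_ii + log lam ≤ log d`, so `R_ii ≤ n/lam`.
Given `t`, take `x` from `t2_plane` for `s = R (T⁻¹ t)` and `k = T x`: `A (k - t) = A T (x - T⁻¹ t) = Q (R x - s)`, so `∑ (A (k - t))_i² = ∑ (R x - s)_l² ≤ n (n/(2 lam))² ≤ (n²/lam)²`.
-/

namespace Pool.Agent.Lib.H32R

open Pool.Agent.Lib.H32P

theorem t3_transference {n : ℕ} (A : Matrix (Fin n) (Fin n) ℝ) (hA : A.det ≠ 0) {lam : ℝ} (hlam : 0 < lam)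
    (h : ∀ w : Fin n → ℤ, w ≠ 0 → lam ^ 2 ≤ ∑ i, ((A⁻¹).transpose.mulVec (fun j => (w j : ℝ)) i) ^ 2)
    (t : Fin n → ℝ) :
    ∃ k : Fin n → ℤ, ∑ i, (A.mulVec (fun j => (k j : ℝ) - t j) i) ^ 2 ≤ ((n:ℝ) ^ 2 / lam) ^ 2 := by
  rcases Nat.eq_zero_or_pos n with h0 | hn
  · subst h0
    exact ⟨fun i => i.elim0, by simp⟩
  obtain ⟨T, Q, R, hT, hQ, hAT, hR⟩ := e5_hkz A hA
  set TR : Matrix (Fin n) (Fin n) ℝ := T.map (Int.cast : ℤ → ℝ) with hTR
  set Ti : Matrix (Fin n) (Fin n) ℝ := (T⁻¹).map (Int.cast : ℤ → ℝ) with hTi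
  have hTRi : TR * Ti = 1 := by
    rw [hTR, hTi]
    have := congrArg (fun M : Matrix (Fin n) (Fin n) ℤ => M.map (Int.castRingHom ℝ))
      (Matrix.mul_nonsing_inv _ hT)
    simp only [Matrix.map_mul] at this
    rw [Matrix.map_one _ (map_zero _) (map_one _)] at this
    exact this
  have hTiR : Ti * TR = 1 := mul_eq_one_comm.1 hTRi
  have hQQ : Q * Q.transpose = 1 := mul_eq_one_comm.1 hQ
  have hcast : ∀ (M : Matrix (Fin n) (Fin n) ℤ) (x : Fin n → ℤ),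
      (M.map (Int.cast : ℤ → ℝ)).mulVec (fun j => (x j : ℝ)) =
      fun j => ((M.mulVec x j : ℤ) : ℝ) := by
    intro M x
    funext j
    simp [Matrix.mulVec, dotProduct, Matrix.map_apply]
  have hRtri : R.BlockTriangular id := fun a b hab => hR.tri a b hab
  have hRdet : R.det = ∏ a, R a a := Matrix.det_of_isUpperTriangular hRtri
  have hRunit : IsUnit R.det := by
    rw [hRdet]
    exact isUnit_iff_ne_zero.2 (Finset.prod_pos fun a _ => hR.pos a).ne'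
  have hAinv : A⁻¹ = TR * R⁻¹ * Q.transpose := by
    apply Matrix.inv_eq_right_inv
    rw [← Matrix.mul_assoc, ← Matrix.mul_assoc, hAT, Matrix.mul_assoc Q R,
      Matrix.mul_nonsing_inv _ hRunit, Matrix.mul_one, hQQ]
  -- the dual condition for `R`
  have hdual : ∀ w : Fin n → ℤ, w ≠ 0 →
      lam ^ 2 ≤ ∑ l, ((R⁻¹).transpose.mulVec (fun j => (w j : ℝ)) l) ^ 2 := by
    intro w hw
    set w' : Fin n → ℤ := (T⁻¹).transpose.mulVec w with hw'
    have hw1 : w' ≠ 0 := by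
      intro h0
      apply hw
      have h1 : T.transpose.mulVec w' = w := by
        rw [hw', Matrix.mulVec_mulVec, ← Matrix.transpose_mul, Matrix.nonsing_inv_mul _ hT,
          Matrix.transpose_one, Matrix.one_mulVec]
      rw [← h1, h0, Matrix.mulVec_zero]
    have h1 := h w' hw1
    have h2 : (fun j => (w' j : ℝ)) = Ti.transpose.mulVec (fun j => (w j : ℝ)) := by
      rw [hw', ← hcast]
      rfl
    have h3 : (A⁻¹).transpose.mulVec (fun j => (w' j : ℝ)) =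
        Q.mulVec ((R⁻¹).transpose.mulVec (fun j => (w j : ℝ))) := by
      rw [h2, hAinv, Matrix.transpose_mul, Matrix.transpose_mul, Matrix.transpose_transpose,
        Matrix.mulVec_mulVec, Matrix.mulVec_mulVec, Matrix.mul_assoc, Matrix.mul_assoc,
        ← Matrix.transpose_mul Ti TR, hTiR, Matrix.transpose_one, Matrix.mul_one]
    rw [h3, e9_orth Q hQ] at h1
    exact h1
  set r : ℕ → ℝ := fun k => if hk : k < n then Real.log (R ⟨k, hk⟩ ⟨k, hk⟩) else 0 with hr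
  have hr1 : ∀ i : Fin n, r i = Real.log (R i i) := by
    intro i
    simp only [hr, dif_pos i.2]
  have hRi : ∀ i : Fin n, R i i ≤ n / lam := by
    intro i
    have hi2 := i.2
    obtain ⟨e, he⟩ : ∃ e : ℕ, (i : ℕ) + e + 1 = n := ⟨n - 1 - i, by omega⟩
    have h1 := e6_block hR r hr1 (i := (i : ℕ)) (e := e) (by omega)
    have h2 := t1_dualblock hR.tri hR.pos hlam hdual r hr1 (i := (i : ℕ)) (e := e) he
    rw [hr1 i] at h1
    have h3 : Real.log (R i i * lam) ≤ Real.log ((e : ℝ) + 1) := by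
      rw [Real.log_mul (hR.pos i).ne' hlam.ne']
      linarith
    have h4 : R i i * lam ≤ (e : ℝ) + 1 :=
      (Real.log_le_log_iff (mul_pos (hR.pos i) hlam) (by positivity)).1 h3
    have h5 : ((e : ℝ) + 1) ≤ n := by
      have : e + 1 ≤ n := by omega
      exact_mod_cast this
    rw [le_div_iff₀ hlam]
    exact h4.trans h5
  obtain ⟨x, hx⟩ := t2_plane R hR.tri hR.pos (R.mulVec (Ti.mulVec t))
  refine ⟨T.mulVec x, ?_⟩
  have h1 : (fun j => ((T.mulVec x j : ℤ) : ℝ) - t j) =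
      TR.mulVec ((fun j => (x j : ℝ)) - Ti.mulVec t) := by
    rw [Matrix.mulVec_sub, Matrix.mulVec_mulVec, hTRi, Matrix.one_mulVec, hTR, hcast]
    rfl
  rw [h1, Matrix.mulVec_mulVec, hAT, ← Matrix.mulVec_mulVec, e9_orth Q hQ, Matrix.mulVec_sub]
  have h2 : ∀ l, (R.mulVec (fun j => (x j : ℝ)) - R.mulVec (Ti.mulVec t)) l ^ 2 ≤ (n / lam) ^ 2 := by
    intro l
    rw [Pi.sub_apply, ← sq_abs]
    refine pow_le_pow_left₀ (abs_nonneg _) ((hx l).trans ?_) 2
    have := hRi l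
    have := hR.pos l
    linarith
  refine (Finset.sum_le_card_nsmul _ _ _ (fun i _ => h2 i)).trans ?_
  rw [Finset.card_univ, Fintype.card_fin, nsmul_eq_mul]
  have h4 : ((n:ℝ) ^ 2 / lam) ^ 2 = (n:ℝ) ^ 2 * (n / lam) ^ 2 := by
    rw [← mul_pow]; ring
  rw [h4]
  apply mul_le_mul_of_nonneg_right _ (by positivity)
  have : (1:ℝ) ≤ n := by exact_mod_cast hn
  nlinarith

end Pool.Agent.Lib.H32R
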