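import Pool.Agent.Lib.H32R.F1
import Pool.Agent.Lib.H32R.T3
import Pool.Agent.Lib.H32P.B9
import Pool.Agent.Lib.H32P.B1

/-!
# Chunk F2 (M): approximation of real polynomials by integer polynomials (compare `H32P.F1b`, finished)

`A = Amat Y n c`, `λ = exp (n (c - c₁) - c₁)/(n (n³ K^27))`, `t j = u0.coeff j`: `t3_transference` gives integers `k_j` with `∑ (A (k - u0))_i² ≤ (n²/λ)²`. With `u = k - u0`: `(A u)_i = u(x_i) exp (-(n (c + U x_i)))`, so
`|u(x_i)| ≤ exp (n (c + U x_i)) n²/λ`, and `b9_lagrange` (`s = 1/2`) gives the claim.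
-/

namespace Pool.Agent.Lib.H32R

open Polynomial MeasureTheory Pool.Agent.Lib.H32P

variable {Y : ℝ → ℝ} {α : ℝ}

theorem f2_approx (hY : Quant Y α) {c₁ : ℝ} (hc : 0 ≤ c₁) {n : ℕ} (hn : 1 ≤ n) (hA : AdmN Y c₁ n)
    (c : ℝ) (u0 : ℝ[X]) (hu : u0.degree < n) :
    ∃ k : ℤ[X], k.degree < n ∧ ∀ t ∈ Set.Icc (0:ℝ) 1,
      |u0.eval t - aeval t k| ≤ Real.exp (n * (c + U Y t)) *
        (K α n ^ 4 * n * ((n:ℝ) ^ 2 / (Real.exp (n * (c - c₁) - c₁) / (n * (n ^ 3 * K α n ^ 27))))) := by
  have hn0 : (0:ℝ) < n := by exact_mod_cast hn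
  have hK1 : 1 ≤ K α n := b1_K hY hn
  have hK0 : 0 < K α n := lt_of_lt_of_le one_pos hK1
  have hdet := f1a_det hY hn c
  set A := Amat Y n c with hAdef
  set lam : ℝ := Real.exp (n * (c - c₁) - c₁) / (n * (n ^ 3 * K α n ^ 27)) with hlam
  have hlam0 : 0 < lam := by positivity
  have hunit : IsUnit A.det := isUnit_iff_ne_zero.2 hdet
  obtain ⟨a, hz2⟩ := t3_transference A hdet hlam0
    (fun l hl => f1_dual hY hc hn hA c l hl) (fun j => u0.coeff j)
  set z : Fin n → ℝ := A.mulVec (fun j => (a j : ℝ) - u0.coeff j) with hz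
  set B : ℝ := (n:ℝ) ^ 2 / lam with hB
  have hB0 : 0 ≤ B := by positivity
  have hzB : ∀ i, |z i| ≤ B := by
    intro i
    apply abs_le_of_sq_le_sq _ hB0
    refine le_trans ?_ hz2
    exact Finset.single_le_sum (f := fun i => z i ^ 2) (fun i _ => sq_nonneg _) (Finset.mem_univ i)
  have hAz : (A⁻¹).mulVec z = fun j => (a j : ℝ) - u0.coeff j := by
    rw [hz, Matrix.mulVec_mulVec, Matrix.nonsing_inv_mul _ hunit, Matrix.one_mulVec]
  -- integer polynomial
  set k : ℤ[X] := ∑ j : Fin n, C (a j) * X ^ (j : ℕ) with hk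
  have hkdeg : k.degree < (n : WithBot ℕ) := by
    exact degree_sum_fin_lt a
  set u : ℝ[X] := k.map (Int.castRingHom ℝ) - u0 with hudef
  have hudeg : u.degree < (n : WithBot ℕ) := by
    refine lt_of_le_of_lt (degree_sub_le _ _) (max_lt ?_ hu)
    exact lt_of_le_of_lt degree_map_le hkdeg
  have hcoeff : ∀ j : Fin n, u.coeff j = (A⁻¹).mulVec z j := by
    intro j
    rw [hAz, hudef, coeff_sub, coeff_map]
    have : k.coeff (j : ℕ) = a j := by
      rw [hk, finsetSum_coeff]
      simp only [coeff_C_mul_X_pow]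
      rw [Finset.sum_eq_single j]
      · simp
      · intro b _ hb
        rw [if_neg]
        intro h
        exact hb (Fin.ext h.symm)
      · intro h
        exact absurd (Finset.mem_univ j) h
    rw [this]
    simp
  have hueval : ∀ x : ℝ, u.eval x = ∑ j : Fin n, x ^ (j : ℕ) * (A⁻¹).mulVec z j := by
    intro x
    have hnat : u.natDegree < n ∨ u = 0 := by
      by_cases h0 : u = 0
      · exact Or.inr h0
      · exact Or.inl ((natDegree_lt_iff_degree_lt h0).2 hudeg)
    have e : u.eval x = ∑ j ∈ Finset.range n, u.coeff j * x ^ j := by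
      rcases hnat with h | h
      · exact eval_eq_sum_range' h x
      · rw [h]; simp
    rw [e, Finset.sum_range]
    apply Finset.sum_congr rfl
    intro j _
    rw [hcoeff j]
    ring
  have hnode : ∀ i : Fin n, u.eval (pt Y n (1 / 2) i) =
      Real.exp (n * (c + U Y (pt Y n (1 / 2) i))) * z i := by
    intro i
    have h1 : A.mulVec ((A⁻¹).mulVec z) = z := by
      rw [Matrix.mulVec_mulVec, Matrix.mul_nonsing_inv _ hunit, Matrix.one_mulVec]
    have h2 := congrFun h1 i
    rw [hueval]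
    have h3 : A.mulVec ((A⁻¹).mulVec z) i =
        Real.exp (-(n * (c + U Y (pt Y n (1 / 2) i)))) *
          ∑ j : Fin n, pt Y n (1 / 2) i ^ (j : ℕ) * (A⁻¹).mulVec z j := by
      rw [Finset.mul_sum]
      simp only [Matrix.mulVec, dotProduct, hAdef, Amat, Matrix.of_apply]
      apply Finset.sum_congr rfl
      intro j _
      ring
    rw [h3] at h2
    rw [← h2, ← mul_assoc, ← Real.exp_add]
    simp
  refine ⟨k, hkdeg, fun t ht => ?_⟩
  have hlag := b9_lagrange hY hn (s := 1 / 2) ⟨by norm_num, by norm_num⟩ u hudeg ht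
  have heq : |u0.eval t - aeval t k| = |u.eval t| := by
    rw [hudef, eval_sub, abs_sub_comm, eval_map, aeval_def]
    rfl
  rw [heq]
  refine hlag.trans ?_
  have hsum : ∑ i ∈ Finset.range n, |u.eval (pt Y n (1 / 2) i)| * Real.exp (-(n * U Y (pt Y n (1 / 2) i))) ≤
      n * (Real.exp (n * c) * B) := by
    have hle : ∀ i ∈ Finset.range n,
        |u.eval (pt Y n (1 / 2) i)| * Real.exp (-(n * U Y (pt Y n (1 / 2) i))) ≤ Real.exp (n * c) * B := by
      intro i hi
      have hi' : i < n := Finset.mem_range.1 hi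
      have := hnode ⟨i, hi'⟩
      simp only at this
      rw [this, abs_mul, abs_of_pos (Real.exp_pos _)]
      have e2 : Real.exp (n * (c + U Y (pt Y n (1 / 2) i))) * |z ⟨i, hi'⟩| * Real.exp (-(n * U Y (pt Y n (1 / 2) i))) =
          Real.exp (n * c) * |z ⟨i, hi'⟩| := by
        rw [mul_add, Real.exp_add, Real.exp_neg]
        field_simp
      rw [e2]
      exact mul_le_mul_of_nonneg_left (hzB _) (Real.exp_pos _).le
    refine (Finset.sum_le_card_nsmul _ _ _ hle).trans ?_
    rw [Finset.card_range, nsmul_eq_mul]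
  have hpos : 0 ≤ K α n ^ 4 * Real.exp (n * U Y t) := by positivity
  refine (mul_le_mul_of_nonneg_left hsum hpos).trans (le_of_eq ?_)
  rw [mul_add, Real.exp_add]
  ring

end Pool.Agent.Lib.H32R
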