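import Pool.Agent.Lib.H32R.F2
import Pool.Agent.Lib.H32P.F4
import Pool.Agent.Lib.H32P.B1

/-!
# Chunk F3 (M): the polynomial for an admissible measure, explicit bound

Choose `c = c₁ + (c₁ + log (8 n^7 K^31))/n` (`K = K α n ≥ 1`), so `exp (n (c - c₁) - c₁) = 8 n^7 K^31` and the factor in `f2_approx` is `K^4 n n² n n³ K^27/(8 n^7 K^31) = 1/8`. `H32P.f4_exists` gives `Q` with
`lc Q ≤ (2n/α)² exp (n c) + 2`, and `exp (n c) = exp (n c₁) exp (c₁) 8 n^7 K^31`, `(2n/α)² ≤ K²` (`K = 2en/α`).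
-/

namespace Pool.Agent.Lib.H32R

open Polynomial MeasureTheory Pool.Agent.Lib.H32P

variable {Y : ℝ → ℝ} {α : ℝ}

theorem f3_exists (hY : Quant Y α) {c₁ : ℝ} (hc : 0 ≤ c₁) {n : ℕ} (hn : 1 ≤ n) (hA : AdmN Y c₁ n) :
    ∃ Q : ℤ[X], Irreducible Q ∧ Q.natDegree = n ∧
      (∀ z : ℂ, aeval z Q = 0 → z.im = 0 ∧ 0 < z.re ∧ z.re < 1) ∧ (Q.map (algebraMap ℤ ℂ)).roots.Nodup ∧
      0 < Q.leadingCoeff ∧
      (Q.leadingCoeff : ℝ) ≤ 8 * n ^ 7 * K α n ^ 33 * Real.exp c₁ * Real.exp (n * c₁) + 2 := by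
  have hα := hY.pos
  have hn0 : (0:ℝ) < n := by exact_mod_cast hn
  have hK1 : 1 ≤ K α n := b1_K hY hn
  have hK0 : 0 < K α n := lt_of_lt_of_le one_pos hK1
  set T : ℝ := 8 * (n:ℝ) ^ 7 * K α n ^ 31 with hT
  have hT0 : 0 < T := by positivity
  set c : ℝ := c₁ + (c₁ + Real.log T) / n with hcdef
  have h1 : (n:ℝ) * (c - c₁) - c₁ = Real.log T := by
    rw [hcdef]
    field_simp
    ring
  have h2 : Real.exp (n * (c - c₁) - c₁) = T := by rw [h1, Real.exp_log hT0]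
  obtain ⟨Q, q1, q2, q3, q4, q5, q6⟩ := f4_exists hY hn (c := c) (by
    intro u0 hu
    obtain ⟨k, hk, hk2⟩ := f2_approx hY hc hn hA c u0 hu
    refine ⟨k, hk, fun t ht => (hk2 t ht).trans (le_of_eq ?_)⟩
    rw [h2, hT]
    field_simp)
  refine ⟨Q, q1, q2, q3, q4, q5, q6.trans ?_⟩
  have h3 : Real.exp (n * c) = Real.exp (n * c₁) * Real.exp c₁ * T := by
    have : (n:ℝ) * c = n * c₁ + c₁ + Real.log T := by linarith
    rw [this, Real.exp_add, Real.exp_add, Real.exp_log hT0]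
  have h4 : (2 * n / α) ^ 2 ≤ K α n ^ 2 := by
    apply pow_le_pow_left₀ (by positivity)
    rw [K]
    have he : (1:ℝ) ≤ Real.exp 1 := by
      have := Real.add_one_le_exp (1:ℝ)
      linarith
    apply div_le_div_of_nonneg_right _ hα.le
    nlinarith
  have h5 : (2 * n / α) ^ 2 * Real.exp (n * c) ≤ K α n ^ 2 * Real.exp (n * c) :=
    mul_le_mul_of_nonneg_right h4 (Real.exp_pos _).le
  have h6 : K α n ^ 2 * Real.exp (n * c) = 8 * n ^ 7 * K α n ^ 33 * Real.exp c₁ * Real.exp (n * c₁) := by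
    rw [h3, hT]
    ring
  linarith

end Pool.Agent.Lib.H32R
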