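import Pool.Agent.Lib.H32R.R3
import Pool.Agent.Lib.H32P.A5
import Pool.Agent.Lib.H32P.A6
import Pool.Agent.Lib.H32P.A7
import Pool.Agent.Lib.H32P.A8

/-!
# Chunk R4 (M): existence of the minimax measure (copy of `H32P.A8`, finished, for products of factors of degree `≤ n`)

Choose `J ≥ 1` with `n ≤ 2^J ≤ 2 n`, and take the family of `r3_family`; `η = 9/2^J ≤ 9/n`. Let `S` be the set of the vectors `ψ_P i = ∫_0^1 f_i log |P| + (c + 9/n) natDegree P` for `P ≠ 0` with `Fac n P`. It is closed under addition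
(`Fac n (P Q)`: an irreducible factor of `P Q` is prime, so it divides `P` or `Q`) and contains `0` (`P = 1`). As in `H32P.A8` every element has a nonnegative coordinate, and one gets `f = ∑ p_i f_i` with `κ ≤ f ≤ D = 2 · 1024^J`,
`∫_0^1 f log |P| ≥ -(c + 9/n) deg P` for all `P ≠ 0` with `Fac n P`, in particular for all `P ≠ 0` with `natDegree P ≤ n` (a factor has degree `≤ natDegree P`). `a7_quantile`: `α = 1/D`, and `D = 2 (2^J)^10 ≤ 2 (2n)^10`.
-/

namespace Pool.Agent.Lib.H32R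

open Polynomial MeasureTheory Pool.Agent.Lib.H32P

theorem r4_exists {c : ℝ} {n : ℕ} (hn : 1 ≤ n)
    (h : ∀ P : ℤ[X], P ≠ 0 → Fac n P → ∃ x ∈ Set.Icc (0:ℝ) 1, Real.exp (-(c * P.natDegree)) ≤ |aeval x P|) :
    ∃ (Y : ℝ → ℝ) (α : ℝ), Quant Y α ∧ 1 / (2 * (2 * (n:ℝ)) ^ 10) ≤ α ∧ AdmN Y (c + 9 / n) n := by
  set J : ℕ := Nat.log 2 n + 1 with hJdef
  have hJ1 : 1 ≤ J := by omega
  have hJlo : n ≤ 2 ^ J := (Nat.lt_pow_succ_log_self (by norm_num) n).le
  have hJhi : 2 ^ J ≤ 2 * n := by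
    rw [hJdef, pow_succ]
    have := Nat.pow_log_le_self 2 (x := n) (by omega)
    omega
  have hnR : (1:ℝ) ≤ n := by exact_mod_cast hn
  have hJloR : (n:ℝ) ≤ 2 ^ J := by exact_mod_cast hJlo
  have hJhiR : (2:ℝ) ^ J ≤ 2 * n := by exact_mod_cast hJhi
  have hη : (9:ℝ) / 2 ^ J ≤ 9 / n := div_le_div_of_nonneg_left (by norm_num) (by linarith) hJloR
  set c₁ : ℝ := c + 9 / n with hc₁
  set D : ℝ := 2 * 1024 ^ J with hDdef
  have hDle : D ≤ 2 * (2 * (n:ℝ)) ^ 10 := by
    have e : (1024:ℝ) ^ J = (2 ^ J) ^ 10 := by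
      rw [← pow_mul, mul_comm, pow_mul]
      norm_num
    rw [hDdef, e]
    have := pow_le_pow_left₀ (by positivity) hJhiR 10
    linarith
  obtain ⟨m, f, κ, hκ, hfm, hfκ, hfD, hf1, hfam⟩ := r3_family hJ1
  have hne : Nonempty (Fin m) := by
    obtain ⟨i, -⟩ := hfam 0 ⟨le_refl _, zero_le_one⟩
    exact ⟨i⟩
  have hf0 : ∀ i y, 0 ≤ f i y := fun i y => hκ.le.trans (hfκ i y)
  let ψ : ℤ[X] → (Fin m → ℝ) := fun P i =>
    (∫ y in (0:ℝ)..1, f i y * Real.log |aeval y P|) + c₁ * P.natDegree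
  let S : AddSubmonoid (Fin m → ℝ) :=
    { carrier := {v | ∃ P : ℤ[X], P ≠ 0 ∧ Fac n P ∧ v = ψ P}
      zero_mem' := by
        refine ⟨1, one_ne_zero, fun F hF hd => absurd (isUnit_of_dvd_one hd) hF.not_isUnit, ?_⟩
        funext i
        simp [ψ]
      add_mem' := by
        rintro a b ⟨P, hP, hFP, rfl⟩ ⟨Q, hQ, hFQ, rfl⟩
        refine ⟨P * Q, mul_ne_zero hP hQ, fun F hF hd => ?_, ?_⟩
        · rcases hF.prime.dvd_or_dvd hd with h1 | h1
          · exact hFP F hF h1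
          · exact hFQ F hF h1
        funext i
        change ((∫ y in (0:ℝ)..1, f i y * Real.log |aeval y P|) + c₁ * P.natDegree) +
          ((∫ y in (0:ℝ)..1, f i y * Real.log |aeval y Q|) + c₁ * Q.natDegree) =
          (∫ y in (0:ℝ)..1, f i y * Real.log |aeval y (P * Q)|) + c₁ * (P * Q).natDegree
        rw [a8_mul (hfm i) (hf0 i) (hfD i) hP hQ, natDegree_mul hP hQ]
        push_cast
        ring }
  have hS : ∀ v ∈ S, ∃ i, 0 ≤ v i := by
    rintro v ⟨P, hP, hFP, rfl⟩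
    obtain ⟨x0, hx0, hx⟩ := h P hP hFP
    have hpos : 0 < |aeval x0 P| := lt_of_lt_of_le (Real.exp_pos _) hx
    have hlog : -(c * P.natDegree) ≤ Real.log |aeval x0 P| := by
      rw [← Real.log_exp (-(c * P.natDegree))]
      exact Real.log_le_log (Real.exp_pos _) hx
    obtain ⟨i, hi⟩ := hfam x0 hx0
    refine ⟨i, ?_⟩
    have h5 := a5_poly (hfm i) (hf0 i) (hfD i) (hf1 i) hi P (abs_pos.1 hpos)
    change 0 ≤ (∫ y in (0:ℝ)..1, f i y * Real.log |aeval y P|) + c₁ * P.natDegree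
    have h6 : (9:ℝ) / 2 ^ J * (P.natDegree : ℝ) ≤ c₁ * P.natDegree - c * P.natDegree := by
      have h7 : c₁ * (P.natDegree : ℝ) - c * P.natDegree = 9 / n * P.natDegree := by
        rw [hc₁]
        ring
      rw [h7]
      exact mul_le_mul_of_nonneg_right hη (Nat.cast_nonneg _)
    linarith
  obtain ⟨p, hp0, hp1, hpS⟩ := a6_minimax S hS
  have hFm : Measurable fun y => ∑ i, p i * f i y :=
    Finset.measurable_sum _ fun i _ => (hfm i).const_mul (p i)
  have hFκ : ∀ y, κ ≤ ∑ i, p i * f i y := by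
    intro y
    calc κ = ∑ i, p i * κ := by rw [← Finset.sum_mul, hp1, one_mul]
      _ ≤ _ := Finset.sum_le_sum fun i _ => mul_le_mul_of_nonneg_left (hfκ i y) (hp0 i)
  have hFD : ∀ y, ∑ i, p i * f i y ≤ D := by
    intro y
    calc ∑ i, p i * f i y ≤ ∑ i, p i * D :=
          Finset.sum_le_sum fun i _ => mul_le_mul_of_nonneg_left (hfD i y) (hp0 i)
      _ = D := by rw [← Finset.sum_mul, hp1, one_mul]
  have hint : ∀ i, IntervalIntegrable (f i) volume 0 1 := by
    intro i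
    refine (intervalIntegrable_const (c := D)).mono_fun (hfm i).aestronglyMeasurable ?_
    refine Filter.Eventually.of_forall fun y => ?_
    change ‖f i y‖ ≤ ‖D‖
    rw [Real.norm_of_nonneg (hf0 i y), Real.norm_of_nonneg ((hf0 i y).trans (hfD i y))]
    exact hfD i y
  have hF1 : ∫ y in (0:ℝ)..1, ∑ i, p i * f i y = 1 := by
    rw [intervalIntegral.integral_finsetSum fun i _ => (hint i).const_mul (p i)]
    calc ∑ i, ∫ y in (0:ℝ)..1, p i * f i y = ∑ i, p i := by
          refine Finset.sum_congr rfl fun i _ => ?_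
          rw [intervalIntegral.integral_const_mul, hf1, mul_one]
      _ = 1 := hp1
  obtain ⟨Y, hQ, hY⟩ := a7_quantile hFm hκ hFκ hFD hF1
  refine ⟨Y, 1 / D, hQ, one_div_le_one_div_of_le (by positivity) hDle, ?_⟩
  intro P hP hPn
  have hFP : Fac n P := fun F _ hd => (natDegree_le_of_dvd hd hP).trans hPn
  rw [← hY _ (a8_meas P)]
  have h7 := hpS (ψ P) ⟨P, hP, hFP, rfl⟩
  have h8 : ∫ y in (0:ℝ)..1, (∑ i, p i * f i y) * Real.log |aeval y P| =
      ∑ i, p i * ∫ y in (0:ℝ)..1, f i y * Real.log |aeval y P| := by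
    have h9 : ∀ y : ℝ, (∑ i, p i * f i y) * Real.log |aeval y P| =
        ∑ i, p i * (f i y * Real.log |aeval y P|) := by
      intro y
      rw [Finset.sum_mul]
      exact Finset.sum_congr rfl fun i _ => by ring
    simp_rw [h9]
    rw [intervalIntegral.integral_finsetSum fun i _ =>
      (a5_int (hfm i) (hf0 i) (hfD i) P 0 1).const_mul (p i)]
    exact Finset.sum_congr rfl fun i _ => by rw [intervalIntegral.integral_const_mul]
  rw [h8]
  have h10 : ∑ i, p i * ψ P i = (∑ i, p i * ∫ y in (0:ℝ)..1, f i y * Real.log |aeval y P|) +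
      c₁ * P.natDegree := by
    have h11 : ∀ i, p i * ψ P i = p i * (∫ y in (0:ℝ)..1, f i y * Real.log |aeval y P|) +
        p i * (c₁ * P.natDegree) := fun i => by
      simp only [ψ]
      ring
    simp_rw [h11]
    rw [Finset.sum_add_distrib, ← Finset.sum_mul, hp1, one_mul]
  rw [h10] at h7
  linarith

end Pool.Agent.Lib.H32R
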