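import Pool.Agent.Lib.H32R.F3
import Pool.Agent.Lib.H32R.R4
import Pool.Agent.Lib.H32P.G2
import Pool.Agent.Lib.H32P.B1

/-!
# Chunk F4 (M): the main theorem

It suffices to treat `ρ ≥ 1/6`: by `H32P.g2_lower` the hypothesis holds for `1/6`, hence for `max ρ (1/6)`, and the conclusion for `max ρ (1/6)` implies the one for `ρ`. `ρ ≤ 1`: apply the hypothesis to `P = X` (an irreducible factor of `X` has degree
`≤ 1 ≤ n`): `ρ ≤ |x| ≤ 1`. Let `c = -log ρ`, `0 ≤ c ≤ log 6`, `exp (-(c d)) = ρ^d`. `r4_exists` gives `Y, α` with `α ≥ 1/(2 (2n)^10)`, `AdmN Y c₁ n`, `c₁ = c + 9/n`; so `K α n = 2en/α ≤ 2^14 n^11` (`e ≤ 4`: `2 e · 2 · 2^10 ≤ 2^14`; `e < 2.7182818286`). `f3_exists`: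
`lc Q ρ^n ≤ 8 n^7 K^33 exp (c₁) exp (n c₁) ρ^n + 2`, `exp (n c₁) ρ^n = exp 9`, `exp c₁ ≤ 6 exp 9`. So `lc Q ρ^n ≤ 8 · 6 · e^18 · 2^462 n^370 + 2 ≤ 2^520 n^370 ≤ (n+1)^900` (`e ≤ 4`, `e^18 ≤ 2^36`; `2 ≤ n + 1`). `C = 900` (or any larger number).
-/

namespace Pool.Agent.Lib.H32R

open Polynomial MeasureTheory Pool.Agent.Lib.H32P

theorem f4_facX {n : ℕ} (hn : 1 ≤ n) : Fac n X := by
  intro F _ hdvd
  have h1 := natDegree_le_of_dvd hdvd X_ne_zero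
  rw [natDegree_X] at h1
  omega

theorem f4_K {α : ℝ} (hα : 0 < α) {n : ℕ} (hn : 1 ≤ n) (h : 1 / (2 * (2 * (n:ℝ)) ^ 10) ≤ α) :
    K α n ≤ 2 ^ 14 * (n:ℝ) ^ 11 := by
  have hn0 : (0:ℝ) < n := by exact_mod_cast hn
  have he : Real.exp 1 ≤ 4 := by
    have := Real.exp_one_lt_d9
    linarith
  have h1 : 1 / α ≤ 2 * (2 * (n:ℝ)) ^ 10 := by
    rw [div_le_iff₀ hα]
    rw [div_le_iff₀ (by positivity)] at h
    linarith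
  have h2 : K α n = 2 * Real.exp 1 * n * (1 / α) := by
    rw [K]; ring
  rw [h2]
  calc 2 * Real.exp 1 * n * (1 / α) ≤ 2 * 4 * n * (2 * (2 * (n:ℝ)) ^ 10) := by
        gcongr
    _ = 2 ^ 14 * (n:ℝ) ^ 11 := by ring

theorem f4_pow {M : ℝ} (hM : 2 ≤ M) {p q r s t : ℕ} {x₁ x₂ x₃ x₄ : ℝ} (h1 : x₁ ≤ M ^ p) (h2 : x₂ ≤ M ^ q)
    (h3 : x₃ ≤ M ^ r) (h4 : x₄ ≤ M ^ s) (g1 : 0 ≤ x₁) (g2 : 0 ≤ x₂) (g3 : 0 ≤ x₃) (g4 : 0 ≤ x₄)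
    (ht : p + q + r + s + 2 ≤ t) : x₁ * x₂ * x₃ * x₄ + 2 ≤ M ^ t := by
  have hM0 : 0 ≤ M := by linarith
  have h5 : x₁ * x₂ * x₃ * x₄ ≤ M ^ (p + q + r + s) := by
    rw [pow_add, pow_add, pow_add]
    apply mul_le_mul _ h4 g4 (by positivity)
    apply mul_le_mul _ h3 g3 (by positivity)
    exact mul_le_mul h1 h2 g2 (by positivity)
  have h6 : (1:ℝ) ≤ M ^ (p + q + r + s) := one_le_pow₀ (by linarith)
  refine le_trans ?_ (pow_le_pow_right₀ (by linarith) ht)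
  rw [pow_add]
  generalize M ^ (p + q + r + s) = X at h5 h6 ⊢
  have h7 : (4:ℝ) ≤ M ^ 2 := by nlinarith
  nlinarith

theorem f4_const {n : ℕ} (hn : 1 ≤ n) {κ : ℝ} (hκ0 : 0 ≤ κ) (hκ : κ ≤ 2 ^ 14 * (n:ℝ) ^ 11) {a b : ℝ}
    (ha0 : 0 ≤ a) (ha : a ≤ 6 * Real.exp 9) (hb0 : 0 ≤ b) (hb : b ≤ Real.exp 9) :
    8 * (n:ℝ) ^ 7 * κ ^ 33 * a * b + 2 ≤ ((n:ℝ) + 1) ^ 900 := by
  have hn1 : (1:ℝ) ≤ n := by exact_mod_cast hn
  have he : Real.exp 9 ≤ 2 ^ 18 := by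
    have h1 := Real.exp_one_lt_d9
    have h2 : Real.exp 9 = Real.exp 1 ^ 9 := by
      rw [← Real.exp_nat_mul]; norm_num
    rw [h2]
    calc Real.exp 1 ^ 9 ≤ 4 ^ 9 := pow_le_pow_left₀ (Real.exp_pos _).le (by linarith) 9
      _ = 2 ^ 18 := by norm_num
  obtain ⟨M, hM⟩ : ∃ M : ℝ, M = (n:ℝ) + 1 := ⟨_, rfl⟩
  rw [← hM]
  have hM2 : (2:ℝ) ≤ M := by rw [hM]; linarith
  have hnM : (n:ℝ) ≤ M := by rw [hM]; linarith
  have hM0 : (0:ℝ) ≤ M := by linarith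
  have hp : ∀ k : ℕ, (2:ℝ) ^ k ≤ M ^ k := fun k => pow_le_pow_left₀ (by norm_num) hM2 k
  have hq : ∀ k : ℕ, (n:ℝ) ^ k ≤ M ^ k := fun k => pow_le_pow_left₀ (by linarith) hnM k
  have h0 : κ ≤ M ^ 25 := by
    refine hκ.trans ?_
    calc (2:ℝ) ^ 14 * (n:ℝ) ^ 11 ≤ M ^ 14 * M ^ 11 :=
          mul_le_mul (hp 14) (hq 11) (by positivity) (by positivity)
      _ = M ^ 25 := by rw [← pow_add]
  have h1 : κ ^ 33 ≤ M ^ (25 * 33) := by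
    rw [pow_mul]
    exact pow_le_pow_left₀ hκ0 h0 33
  have h2 : 8 * (n:ℝ) ^ 7 ≤ M ^ (3 + 7) := by
    rw [pow_add]
    calc 8 * (n:ℝ) ^ 7 = 2 ^ 3 * (n:ℝ) ^ 7 := by norm_num
      _ ≤ M ^ 3 * M ^ 7 := mul_le_mul (hp 3) (hq 7) (by positivity) (by positivity)
  have h3 : a ≤ M ^ 21 := by
    calc a ≤ 6 * 2 ^ 18 := ha.trans (by linarith)
      _ ≤ 2 ^ 21 := by norm_num
      _ ≤ M ^ 21 := hp 21
  have h4 : b ≤ M ^ 18 := hb.trans (he.trans (hp 18))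
  exact f4_pow hM2 h2 h1 h3 h4 (by positivity) (by positivity) ha0 hb0 (by norm_num)

theorem f4_large {n : ℕ} (hn : 1 ≤ n) {ρ : ℝ} (hρ : 1 / 6 ≤ ρ)
    (h : ∀ P : ℤ[X], P ≠ 0 → Fac n P → ∃ x ∈ Set.Icc (0:ℝ) 1, ρ ^ P.natDegree ≤ |aeval x P|) :
    ∃ Q : ℤ[X], Irreducible Q ∧ Q.natDegree = n ∧
      (∀ z : ℂ, aeval z Q = 0 → z.im = 0 ∧ 0 < z.re ∧ z.re < 1) ∧ (Q.map (algebraMap ℤ ℂ)).roots.Nodup ∧
      0 < Q.leadingCoeff ∧ (Q.leadingCoeff : ℝ) * ρ ^ n ≤ ((n:ℝ) + 1) ^ 900 := by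
  have hn0 : (0:ℝ) < n := by exact_mod_cast hn
  have hρ0 : 0 < ρ := lt_of_lt_of_le (by norm_num) hρ
  have hρ1 : ρ ≤ 1 := by
    obtain ⟨x, hx, hx2⟩ := h X X_ne_zero (f4_facX hn)
    rw [natDegree_X, pow_one, aeval_X, abs_of_nonneg hx.1] at hx2
    exact hx2.trans hx.2
  set c : ℝ := -Real.log ρ with hc
  have hc0 : 0 ≤ c := by
    have := Real.log_nonpos hρ0.le hρ1
    linarith
  have hexp : ∀ d : ℕ, Real.exp (-(c * d)) = ρ ^ d := by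
    intro d
    rw [hc, show -(-Real.log ρ * (d:ℝ)) = d * Real.log ρ by ring, Real.exp_nat_mul, Real.exp_log hρ0]
  obtain ⟨Y, α, hY, hα, hA⟩ := r4_exists (c := c) hn (by
    intro P hP hF
    obtain ⟨x, hx, hx2⟩ := h P hP hF
    exact ⟨x, hx, by rw [hexp]; exact hx2⟩)
  have hc1 : 0 ≤ c + 9 / n := by positivity
  obtain ⟨Q, q1, q2, q3, q4, q5, q6⟩ := f3_exists hY hc1 hn hA
  refine ⟨Q, q1, q2, q3, q4, q5, ?_⟩
  have hK := f4_K hY.pos hn hα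
  have hK0 := b1_K_nonneg hY n
  have hρn : 0 < ρ ^ n := by positivity
  have hρn1 : ρ ^ n ≤ 1 := pow_le_one₀ hρ0.le hρ1
  have h1 : (Q.leadingCoeff : ℝ) * ρ ^ n ≤
      8 * (n:ℝ) ^ 7 * K α n ^ 33 * Real.exp (c + 9 / n) * (Real.exp (n * (c + 9 / n)) * ρ ^ n) + 2 := by
    have h2 := mul_le_mul_of_nonneg_right q6 hρn.le
    refine h2.trans ?_
    rw [add_mul]
    have h3 : 2 * ρ ^ n ≤ 2 := by linarith
    linarith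
  refine h1.trans ?_
  apply f4_const hn hK0 hK (Real.exp_pos _).le _ (by positivity)
  · have h4 : Real.exp (n * (c + 9 / n)) * ρ ^ n = Real.exp 9 := by
      rw [← hexp n, ← Real.exp_add]
      congr 1
      field_simp
      ring
    rw [h4]
  · rw [Real.exp_add]
    have h5 : Real.exp c ≤ 6 := by
      rw [hc, Real.exp_neg, Real.exp_log hρ0, inv_le_comm₀ hρ0 (by norm_num)]
      linarith
    have h6 : Real.exp (9 / n) ≤ Real.exp 9 := by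
      apply Real.exp_le_exp.2
      rw [div_le_iff₀ hn0]
      have : (1:ℝ) ≤ n := by exact_mod_cast hn
      linarith
    exact mul_le_mul h5 h6 (Real.exp_pos _).le (by norm_num)

theorem f4_main : ∃ C : ℕ, ∀ n : ℕ, 1 ≤ n → ∀ ρ : ℝ, 0 < ρ →
    (∀ P : ℤ[X], P ≠ 0 → Fac n P → ∃ x ∈ Set.Icc (0:ℝ) 1, ρ ^ P.natDegree ≤ |aeval x P|) →
    ∃ Q : ℤ[X], Irreducible Q ∧ Q.natDegree = n ∧
      (∀ z : ℂ, aeval z Q = 0 → z.im = 0 ∧ 0 < z.re ∧ z.re < 1) ∧ (Q.map (algebraMap ℤ ℂ)).roots.Nodup ∧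
      0 < Q.leadingCoeff ∧ (Q.leadingCoeff : ℝ) * ρ ^ n ≤ ((n:ℝ) + 1) ^ C := by
  refine ⟨900, fun n hn ρ hρ0 h => ?_⟩
  rcases le_or_gt (1 / 6) ρ with h6 | h6
  · exact f4_large hn h6 h
  · obtain ⟨Q, q1, q2, q3, q4, q5, q6⟩ := f4_large hn (le_refl (1 / 6 : ℝ)) (fun P hP _ => g2_lower P hP)
    refine ⟨Q, q1, q2, q3, q4, q5, le_trans ?_ q6⟩
    have hlc : (0:ℝ) < (Q.leadingCoeff : ℝ) := by exact_mod_cast q5
    exact mul_le_mul_of_nonneg_left (pow_le_pow_left₀ hρ0.le h6.le n) hlc.le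

end Pool.Agent.Lib.H32R
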