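import Pool.Agent.Lib.H32R.F4
import Pool.Agent.Lib.H32P.G2

/-!
# Chunk F5 (S/M): the two theorems on `τ`

`f5_near`: `f4_main` for `ρ = τ` (`g1_tau`, `g2_pos`; the condition `Fac n P` is not needed).

`f5_dichotomy`: let `C` be from `f4_main` and take `C + 1`. Suppose the set of critical polynomials is finite and let `N ≥ 1` be larger than all their degrees. For `n ≥ N` let `ρ = τ (n+1)^((C+1)/n)`, so `ρ^n = τ^n (n+1)^(C+1)`. If the conclusion fails for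
`n`, then the hypothesis of `f4_main` holds for `ρ`, so there is `Q` with `lc Q τ^n (n+1)^(C+1) ≤ (n+1)^C`, hence `lc Q τ^n < 1`, `|lc Q|^(-1/n) > τ`: a critical polynomial of degree `n`, a contradiction.
-/

namespace Pool.Agent.Lib.H32R

open Polynomial MeasureTheory Pool.Agent.Lib.H32P

theorem f5_near : ∃ C : ℕ, ∀ τ : ℝ, IsTau τ → ∀ n : ℕ, 1 ≤ n →
    ∃ Q : ℤ[X], Irreducible Q ∧ Q.natDegree = n ∧
      (∀ z : ℂ, aeval z Q = 0 → z.im = 0 ∧ 0 < z.re ∧ z.re < 1) ∧ (Q.map (algebraMap ℤ ℂ)).roots.Nodup ∧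
      0 < Q.leadingCoeff ∧ (Q.leadingCoeff : ℝ) * τ ^ n ≤ ((n:ℝ) + 1) ^ C := by
  obtain ⟨C, hC⟩ := f4_main
  refine ⟨C, fun τ hτ n hn => hC n hn τ (g2_pos hτ) (fun P hP _ => g1_tau hτ P hP)⟩

theorem f5_dichotomy : ∃ C : ℕ, ∀ τ : ℝ, IsTau τ →
    Set.Infinite {Q : ℤ[X] | Irreducible Q ∧ 0 < Q.natDegree ∧
        (∀ z : ℂ, aeval z Q = 0 → z.im = 0 ∧ 0 ≤ z.re ∧ z.re ≤ 1) ∧
        τ < |((Q.leadingCoeff : ℤ) : ℝ)| ^ (-(1:ℝ) / (Q.natDegree : ℝ))} ∨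
    ∃ N : ℕ, ∀ n ≥ N, ∃ P : ℤ[X], P ≠ 0 ∧ Fac n P ∧ ∀ x ∈ Set.Icc (0:ℝ) 1,
      |aeval x P| < (τ * ((n:ℝ) + 1) ^ ((C:ℝ) / n)) ^ P.natDegree := by
  obtain ⟨C, hC⟩ := f4_main
  refine ⟨C + 1, fun τ hτ => ?_⟩
  have hτ0 := g2_pos hτ
  by_cases hinf : Set.Infinite {Q : ℤ[X] | Irreducible Q ∧ 0 < Q.natDegree ∧
        (∀ z : ℂ, aeval z Q = 0 → z.im = 0 ∧ 0 ≤ z.re ∧ z.re ≤ 1) ∧
        τ < |((Q.leadingCoeff : ℤ) : ℝ)| ^ (-(1:ℝ) / (Q.natDegree : ℝ))}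
  · exact Or.inl hinf
  right
  rw [Set.not_infinite] at hinf
  -- a bound for the degrees
  obtain ⟨N, hN⟩ := (hinf.image (fun Q : ℤ[X] => Q.natDegree)).bddAbove
  refine ⟨N + 1, fun n hn => ?_⟩
  have hn1 : 1 ≤ n := by omega
  have hn0 : (0:ℝ) < n := by exact_mod_cast hn1
  by_contra hcon
  push Not at hcon
  set ρ : ℝ := τ * ((n:ℝ) + 1) ^ (((C + 1 : ℕ) : ℝ) / n) with hρ
  have hρ0 : 0 < ρ := by positivity
  have hρn : ρ ^ n = τ ^ n * ((n:ℝ) + 1) ^ (C + 1) := by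
    rw [hρ, mul_pow]
    congr 1
    rw [← Real.rpow_natCast, ← Real.rpow_mul (by positivity), div_mul_cancel₀ _ hn0.ne', Real.rpow_natCast]
  obtain ⟨Q, q1, q2, q3, q4, q5, q6⟩ := hC n hn1 ρ hρ0 (fun P hP hF => by
    obtain ⟨x, hx, hx2⟩ := hcon P hP hF
    exact ⟨x, hx, hx2⟩)
  rw [hρn] at q6
  have hlc : (0:ℝ) < (Q.leadingCoeff : ℝ) := by exact_mod_cast q5
  have hnp : (0:ℝ) < ((n:ℝ) + 1) ^ C := by positivity
  have h1 : (Q.leadingCoeff : ℝ) * τ ^ n * ((n:ℝ) + 1) ≤ 1 := by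
    have h2 : (Q.leadingCoeff : ℝ) * τ ^ n * ((n:ℝ) + 1) * ((n:ℝ) + 1) ^ C ≤ 1 * ((n:ℝ) + 1) ^ C := by
      rw [one_mul]
      refine le_trans (le_of_eq ?_) q6
      rw [pow_succ]
      ring
    exact le_of_mul_le_mul_right h2 hnp
  have h3 : (Q.leadingCoeff : ℝ) * τ ^ n < 1 := by
    have h4 : 0 < (Q.leadingCoeff : ℝ) * τ ^ n := by positivity
    nlinarith
  have hcrit : τ < |((Q.leadingCoeff : ℤ) : ℝ)| ^ (-(1:ℝ) / (Q.natDegree : ℝ)) := by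
    rw [abs_of_pos hlc, q2, neg_div, Real.rpow_neg hlc.le]
    rw [lt_inv_comm₀ hτ0 (Real.rpow_pos_of_pos hlc _)]
    have h5 : (Q.leadingCoeff : ℝ) < (τ⁻¹) ^ n := by
      rw [inv_pow, lt_inv_comm₀ hlc (by positivity), ← one_div, lt_div_iff₀ hlc]
      linarith
    have h6 := Real.rpow_lt_rpow hlc.le h5 (by positivity : (0:ℝ) < 1 / n)
    rwa [← Real.rpow_natCast, ← Real.rpow_mul (by positivity), mul_one_div_cancel hn0.ne', Real.rpow_one] at h6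
  have hmem : Q.natDegree ∈ (fun Q : ℤ[X] => Q.natDegree) '' {Q : ℤ[X] | Irreducible Q ∧ 0 < Q.natDegree ∧
        (∀ z : ℂ, aeval z Q = 0 → z.im = 0 ∧ 0 ≤ z.re ∧ z.re ≤ 1) ∧
        τ < |((Q.leadingCoeff : ℤ) : ℝ)| ^ (-(1:ℝ) / (Q.natDegree : ℝ))} := by
    refine ⟨Q, ⟨q1, by omega, fun z hz => ?_, hcrit⟩, rfl⟩
    obtain ⟨a1, a2, a3⟩ := q3 z hz
    exact ⟨a1, a2.le, a3.le⟩
  have := hN hmem
  omega

end Pool.Agent.Lib.H32R
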