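import Pool.Agent.Lib.H32R.Defs
import Pool.Agent.Lib.H32P.A1

/-!
# Chunk R1 (S/M): one scale (compare `H32P.A2`, finished, whose proof contains both cases)

`ρ = ‖x0 - z‖ > 0`, `r = ρ/L`. If `4 ≤ r`: for `y` in the interval `‖y - z‖ ≥ ρ - 2 L = ρ (1 - 2/r)` and `log (1 - 2/r) ≥ -4/r`. If `r < 4`: the mean is `≥ log (L/2) - 1` (`H32P.a1_logc`), and
`log ρ - (log (L/2) - 1) = log (2 r) + 1 = loss r`.
-/

namespace Pool.Agent.Lib.H32R

open Polynomial MeasureTheory Pool.Agent.Lib.H32P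

theorem r1_scale (x0 : ℝ) (z : ℂ) (hz : (x0 : ℂ) ≠ z) (p : ℝ) {L : ℝ} (hL : 0 < L)
    (hp : ∀ y ∈ Set.Icc p (p + L), |y - x0| ≤ 2 * L) :
    Real.log ‖(x0 : ℂ) - z‖ - loss (‖(x0 : ℂ) - z‖ / L) ≤
      (1 / L) * ∫ y in p..(p + L), Real.log ‖(y : ℂ) - z‖ := by
  have hρ : 0 < ‖(x0 : ℂ) - z‖ := norm_pos_iff.2 (sub_ne_zero.2 hz)
  set ρ : ℝ := ‖(x0 : ℂ) - z‖ with hρd
  rcases le_or_gt (4 * L) ρ with hc | hc
  · -- far case
    have hy : ∀ y ∈ Set.Icc p (p + L), Real.log ρ - 4 * L / ρ ≤ Real.log ‖(y : ℂ) - z‖ := by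
      intro y hy
      have h1 := hp y hy
      have h2 : ρ - 2 * L ≤ ‖(y : ℂ) - z‖ := by
        have e : (x0 : ℂ) - z = ((y : ℂ) - z) - ((y : ℂ) - (x0 : ℂ)) := by ring
        have h3 : ‖(y : ℂ) - (x0 : ℂ)‖ = |y - x0| := by
          rw [← Complex.ofReal_sub, Complex.norm_real, Real.norm_eq_abs]
        have h4 := norm_sub_le ((y : ℂ) - z) ((y : ℂ) - (x0 : ℂ))
        rw [← e, h3] at h4
        linarith
      have h3 : 0 < ρ - 2 * L := by linarith
      have h4 : Real.log (ρ - 2 * L) ≤ Real.log ‖(y : ℂ) - z‖ := Real.log_le_log h3 h2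
      have h5 : 1 - ((ρ - 2 * L) / ρ)⁻¹ ≤ Real.log ((ρ - 2 * L) / ρ) :=
        Real.one_sub_inv_le_log_of_pos (by positivity)
      rw [Real.log_div h3.ne' hρ.ne', inv_div] at h5
      have h6 : ρ / (ρ - 2 * L) - 1 ≤ 4 * L / ρ := by
        rw [div_sub_one h3.ne', div_le_div_iff₀ h3 hρ]
        nlinarith
      linarith
    have h7 : ∫ _y in p..(p + L), (Real.log ρ - 4 * L / ρ) ≤
        ∫ y in p..(p + L), Real.log ‖(y : ℂ) - z‖ :=
      intervalIntegral.integral_mono_on (by linarith) intervalIntegrable_const (a1_int _ _ _) hy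
    rw [intervalIntegral.integral_const, smul_eq_mul] at h7
    have h8 : Real.log ρ - 4 * L / ρ ≤ (1 / L) * ∫ y in p..(p + L), Real.log ‖(y : ℂ) - z‖ := by
      rw [one_div, inv_mul_eq_div, le_div_iff₀ hL]
      have : (p + L - p) * (Real.log ρ - 4 * L / ρ) = (Real.log ρ - 4 * L / ρ) * L := by ring
      linarith
    have h9 : loss (ρ / L) = 4 * L / ρ := by
      rw [loss, if_pos (by rw [le_div_iff₀ hL]; exact hc)]
      field_simp
    rw [h9]
    exact h8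
  · -- near case
    have h1 := a1_logc p z hL
    have h2 : Real.log (L / 2) - 1 ≤ (1 / L) * ∫ y in p..(p + L), Real.log ‖(y : ℂ) - z‖ := by
      rw [one_div, inv_mul_eq_div, le_div_iff₀ hL]
      linarith
    have h3 : loss (ρ / L) = Real.log (2 * (ρ / L)) + 1 := by
      rw [loss, if_neg (by rw [not_le, div_lt_iff₀ hL]; exact hc)]
    have e2 : Real.log (2 * (ρ / L)) = Real.log ρ - Real.log (L / 2) := by
      rw [← Real.log_div hρ.ne' (by positivity)]
      congr 1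
      field_simp
    rw [h3, e2]
    linarith

end Pool.Agent.Lib.H32R
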