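import Pool.Agent.Lib.H32R.Defs

/-!
# Chunk R2 (M): the telescoping inequality and the weighted sum of the losses

`r2_ineq`: `gg r = min 8 (1/(40 r))`; `gg r = 8` iff `r ≤ 1/320`; `gg (r/1024) = min 8 (25.6/r)`, it is `8` iff `r ≤ 3.2`.
* `r ≤ 1/320`: the right side is `4 - 8 = -4`, and `loss r = log (2r) + 1 ≤ log (1/160) + 1 ≤ -4`, i.e. `e^5 ≤ 160` (`e < 2.7182818286`).
* `1/320 ≤ r ≤ 1/40`: the right side is `4 - 1/(40 r)`; `log (2 r) = log (1/160) + log (320 r) ≤ -5 + (320 r - 1)` and `320 r + 1/(40 r) ≤ 9` because `(320 r - 1)(40 r - 1) ≤ 0`.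
* `1/40 ≤ r ≤ 3.2`: the right side is `≥ 3`, and `log (2r) + 1 ≤ log 6.4 + 1 ≤ 3` (`6.4 ≤ e²`).
* `r ≥ 3.2`: the right side is `12.8/r - 1/(40 r) = 12.775/r`. For `r ≥ 4`, `loss r = 4/r`. For `3.2 ≤ r < 4`: `loss r = log (2r) + 1 ≤ log 8 + 1 ≤ 3.08 ≤ 12.775/4`.

`r2_sum`: by `r2_ineq` with `r = ρ 1024^(j+1)`: `2^(j+1) loss(r) ≤ 2^j gg (ρ 1024^j) - 2^(j+1) gg (ρ 1024^(j+1))`; the sum telescopes to `gg ρ - 2^J gg (ρ 1024^J) ≤ 8`.
-/

namespace Pool.Agent.Lib.H32R

theorem r2_log160 {r : ℝ} (hr : 0 < r) : Real.log (2 * r) ≤ -5 + Real.log (320 * r) := by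
  have h1 : Real.log (2 * r) = Real.log (1 / 160) + Real.log (320 * r) := by
    rw [← Real.log_mul (by norm_num) (by positivity)]
    congr 1
    ring
  have h2 : Real.log (1 / 160) ≤ -5 := by
    rw [Real.log_div (by norm_num) (by norm_num), Real.log_one, zero_sub]
    have h3 : (5 : ℝ) ≤ Real.log 160 := by
      rw [Real.le_log_iff_exp_le (by norm_num)]
      have h4 : Real.exp 5 = Real.exp 1 ^ 5 := by rw [← Real.exp_nat_mul]; norm_num
      rw [h4]
      have h5 := Real.exp_one_lt_d9
      calc Real.exp 1 ^ 5 ≤ 2.7182818286 ^ 5 :=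
            pow_le_pow_left₀ (Real.exp_pos 1).le h5.le 5
        _ ≤ 160 := by norm_num
    linarith
  linarith

theorem r2_ineq {r : ℝ} (hr : 0 < r) : loss r ≤ gg (r / 1024) / 2 - gg r := by
  rcases le_total r (1 / 320) with h1 | h1
  · have e1 : gg r = 8 := by
      unfold gg
      apply min_eq_left
      rw [le_div_iff₀ (by positivity)]
      linarith
    have e2 : gg (r / 1024) = 8 := by
      unfold gg
      apply min_eq_left
      rw [le_div_iff₀ (by positivity)]
      linarith
    have e3 : loss r = Real.log (2 * r) + 1 := by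
      unfold loss
      rw [if_neg (by linarith)]
    rw [e1, e2, e3]
    have h2 := r2_log160 hr
    have h3 : Real.log (320 * r) ≤ 0 := Real.log_nonpos (by positivity) (by linarith)
    linarith
  rcases le_total r (1 / 40) with h2 | h2
  · have e1 : gg r = 1 / (40 * r) := by
      unfold gg
      apply min_eq_right
      rw [div_le_iff₀ (by positivity)]
      linarith
    have e2 : gg (r / 1024) = 8 := by
      unfold gg
      apply min_eq_left
      rw [le_div_iff₀ (by positivity)]
      linarith
    have e3 : loss r = Real.log (2 * r) + 1 := by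
      unfold loss
      rw [if_neg (by linarith)]
    rw [e1, e2, e3]
    have h3 := r2_log160 hr
    have h4 : Real.log (320 * r) ≤ 320 * r - 1 := Real.log_le_sub_one_of_pos (by positivity)
    have h5 : 1 / (40 * r) ≤ 9 - 320 * r := by
      rw [div_le_iff₀ (by positivity)]
      nlinarith
    linarith
  rcases le_total r (32 / 10) with h3 | h3
  · have e1 : gg r = 1 / (40 * r) := by
      unfold gg
      apply min_eq_right
      rw [div_le_iff₀ (by positivity)]
      linarith
    have e2 : gg (r / 1024) = 8 := by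
      unfold gg
      apply min_eq_left
      rw [le_div_iff₀ (by positivity)]
      linarith
    have e3 : loss r = Real.log (2 * r) + 1 := by
      unfold loss
      rw [if_neg (by linarith)]
    rw [e1, e2, e3]
    have h4 : 1 / (40 * r) ≤ 1 := by
      rw [div_le_iff₀ (by positivity)]
      linarith
    have h5 : Real.log (2 * r) ≤ 2 := by
      rw [Real.log_le_iff_le_exp (by positivity)]
      have h6 : Real.exp 2 = Real.exp 1 ^ 2 := by rw [← Real.exp_nat_mul]; norm_num
      rw [h6]
      have h7 := Real.exp_one_gt_d9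
      have h8 : (2.7182818283 : ℝ) ^ 2 ≤ Real.exp 1 ^ 2 :=
        pow_le_pow_left₀ (by norm_num) h7.le 2
      norm_num at h8 ⊢
      linarith
    linarith
  · have e1 : gg r = 1 / (40 * r) := by
      unfold gg
      apply min_eq_right
      rw [div_le_iff₀ (by positivity)]
      linarith
    have e2 : gg (r / 1024) = 25.6 / r := by
      unfold gg
      have : 1 / (40 * (r / 1024)) = 25.6 / r := by
        field_simp
        norm_num
      rw [this]
      apply min_eq_right
      rw [div_le_iff₀ hr]
      linarith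
    have e4 : gg (r / 1024) / 2 - gg r = 12.775 / r := by
      rw [e1, e2]
      field_simp
      norm_num
    rw [e4]
    unfold loss
    split_ifs with h4
    · exact div_le_div_of_nonneg_right (by norm_num) hr.le
    · push Not at h4
      have h5 : Real.log (2 * r) ≤ 3 * Real.log 2 := by
        have : Real.log ((2 : ℝ) ^ 3) = 3 * Real.log 2 := by
          rw [Real.log_pow]
          norm_num
        rw [← this]
        apply Real.log_le_log (by positivity)
        norm_num
        linarith
      have h6 := Real.log_two_lt_d9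
      have h7 : (3.1 : ℝ) ≤ 12.775 / r := by
        rw [le_div_iff₀ hr]
        linarith
      linarith

theorem r2_sum {ρ : ℝ} (hρ : 0 < ρ) (J : ℕ) :
    ∑ j ∈ Finset.range J, (2:ℝ) ^ (j + 1) * loss (ρ * 1024 ^ (j + 1)) ≤ 8 := by
  set f : ℕ → ℝ := fun j => (2 : ℝ) ^ j * gg (ρ * 1024 ^ j) with hf
  have h1 : ∀ j ∈ Finset.range J, (2:ℝ) ^ (j + 1) * loss (ρ * 1024 ^ (j + 1)) ≤ f j - f (j + 1) := by
    intro j _
    have h2 := r2_ineq (r := ρ * 1024 ^ (j + 1)) (by positivity)
    have e : ρ * 1024 ^ (j + 1) / 1024 = ρ * 1024 ^ j := by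
      rw [pow_succ]
      field_simp
    rw [e] at h2
    calc (2:ℝ) ^ (j + 1) * loss (ρ * 1024 ^ (j + 1))
        ≤ 2 ^ (j + 1) * (gg (ρ * 1024 ^ j) / 2 - gg (ρ * 1024 ^ (j + 1))) :=
          mul_le_mul_of_nonneg_left h2 (by positivity)
      _ = f j - f (j + 1) := by
          simp only [hf]
          rw [pow_succ]
          ring
  refine (Finset.sum_le_sum h1).trans ?_
  rw [Finset.sum_range_sub']
  have h3 : f 0 ≤ 8 := by
    simp only [hf, pow_zero, one_mul, mul_one]
    exact min_le_left _ _
  have h4 : 0 ≤ f J := by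
    simp only [hf]
    have : 0 ≤ gg (ρ * 1024 ^ J) := le_min (by norm_num) (by positivity)
    positivity
  linarith

end Pool.Agent.Lib.H32R
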