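import Pool.Agent.Lib.H32R.R1
import Pool.Agent.Lib.H32R.R2
import Pool.Agent.Lib.H32P.A3
import Pool.Agent.Lib.H32P.A4

/-!
# Chunk R3 (M/L): the finite family of regularising densities (copy of `H32P.A4`, finished, with other scales and weights)

`κ = 1/(3 · 2^J)`, `L_j = 1/1024^(j+1)`, weights `w_j = 2^(j+1)/(2^(J+1) - 2)` (`j < J`, sum `1`). For `i = 0, .., 1024^J` let `x_i = i/1024^J`, `p_ij = x_i` if `x_i ≤ 1/2`, `p_ij = x_i - L_j` otherwise, so `[p_ij, p_ij + L_j] ⊆ [0,1]`.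
`f_i y = κ + (1 - κ) ∑_{j<J} w_j 1024^(j+1) 1_{Ioc p_ij (p_ij + L_j)}(y)`; then `κ ≤ f_i ≤ κ + 1024^J ≤ 2 · 1024^J`, `∫_0^1 f_i = 1`, and for `x0 ∈ [0,1]` choose `i` with `|x_i - x0| ≤ 1/1024^J`, so that
`|y - x0| ≤ 2 L_j` on `[p_ij, p_ij + L_j]`. `r1_scale` for all `j`, `r2_sum` (`‖x0 - z‖/L_j = ‖x0 - z‖ · 1024^(j+1)`) and `a3_leb`:
`∫ f_i log ‖y - z‖ ≥ log ‖x0 - z‖ - 3 κ - (1 - κ) 8/(2^(J+1) - 2) ≥ log ‖x0 - z‖ - 1/2^J - 8/2^J` (`2^(J+1) - 2 ≥ 2^J` for `J ≥ 1`; if the sum of the losses is negative it is still `≤ 8`).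
-/

namespace Pool.Agent.Lib.H32R

open Polynomial MeasureTheory Pool.Agent.Lib.H32P

/-- the density with constants `κ`, `J`, weights `w` and starting points `p`. -/
noncomputable def r3f (κ : ℝ) (J : ℕ) (w p : ℕ → ℝ) (y : ℝ) : ℝ :=
  κ + (1 - κ) * ∑ j ∈ Finset.range J, w j * 1024 ^ (j + 1) * a4ind (p j) (1 / 1024 ^ (j + 1)) y

theorem r3f_integral {κ : ℝ} {J : ℕ} {w p : ℕ → ℝ} (hp : ∀ j < J, 0 ≤ p j)
    (hp1 : ∀ j < J, p j + 1 / 1024 ^ (j + 1) ≤ 1) {g : ℝ → ℝ} (hg : IntervalIntegrable g volume 0 1) :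
    ∫ y in (0:ℝ)..1, r3f κ J w p y * g y = κ * (∫ y in (0:ℝ)..1, g y) +
      (1 - κ) * ∑ j ∈ Finset.range J, w j * 1024 ^ (j + 1) * ∫ y in (p j)..(p j + 1 / 1024 ^ (j + 1)), g y := by
  have h1 : ∀ y, r3f κ J w p y * g y = κ * g y +
      (1 - κ) * ∑ j ∈ Finset.range J, w j * 1024 ^ (j + 1) * (a4ind (p j) (1 / 1024 ^ (j + 1)) y * g y) := by
    intro y
    unfold r3f
    rw [add_mul, mul_assoc (1 - κ), Finset.sum_mul]
    congr 2
    apply Finset.sum_congr rfl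
    intro j _
    ring
  simp_rw [h1]
  rw [intervalIntegral.integral_add (hg.const_mul κ)]
  · rw [intervalIntegral.integral_const_mul, intervalIntegral.integral_const_mul, intervalIntegral.integral_finsetSum]
    · congr 2
      apply Finset.sum_congr rfl
      intro j hj
      rw [Finset.mem_range] at hj
      rw [intervalIntegral.integral_const_mul, a4ind_integral (hp j hj) (by positivity) (hp1 j hj)]
    · intro j _
      exact (a4ind_intble hg).const_mul _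
  · apply IntervalIntegrable.const_mul
    have := IntervalIntegrable.sum (s := Finset.range J) (μ := volume) (a := (0:ℝ)) (b := 1)
      (f := fun j => fun y => w j * (1024:ℝ) ^ (j + 1) * (a4ind (p j) (1 / 1024 ^ (j + 1)) y * g y))
      (fun j _ => (a4ind_intble hg).const_mul _)
    have h2 : (fun y => ∑ j ∈ Finset.range J, w j * (1024:ℝ) ^ (j + 1) * (a4ind (p j) (1 / 1024 ^ (j + 1)) y * g y)) =
        ∑ j ∈ Finset.range J, fun y => w j * (1024:ℝ) ^ (j + 1) * (a4ind (p j) (1 / 1024 ^ (j + 1)) y * g y) := by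
      funext y
      simp [Finset.sum_apply]
    rw [h2]
    exact this

theorem r3_wsum {J : ℕ} : ∑ j ∈ Finset.range J, (2 : ℝ) ^ (j + 1) = 2 ^ (J + 1) - 2 := by
  induction J with
  | zero => norm_num
  | succ J ih =>
    rw [Finset.sum_range_succ, ih]
    ring

theorem r3_family {J : ℕ} (hJ : 1 ≤ J) :
    ∃ (m : ℕ) (f : Fin m → ℝ → ℝ) (κ : ℝ), 0 < κ ∧ (∀ i, Measurable (f i)) ∧ (∀ i y, κ ≤ f i y) ∧
      (∀ i y, f i y ≤ 2 * 1024 ^ J) ∧ (∀ i, ∫ y in (0:ℝ)..1, f i y = 1) ∧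
      ∀ x0 ∈ Set.Icc (0:ℝ) 1, ∃ i, ∀ z : ℂ, (x0 : ℂ) ≠ z →
        Real.log ‖(x0 : ℂ) - z‖ - 9 / 2 ^ J ≤ ∫ y in (0:ℝ)..1, f i y * Real.log ‖(y : ℂ) - z‖ := by
  have h2J : (2:ℝ) ≤ 2 ^ J := by
    calc (2:ℝ) = 2 ^ 1 := by norm_num
      _ ≤ 2 ^ J := pow_le_pow_right₀ (by norm_num) hJ
  set W : ℝ := 2 ^ (J + 1) - 2 with hW
  have hWge : (2:ℝ) ^ J ≤ W := by
    rw [hW, pow_succ]
    linarith
  have hWpos : 0 < W := by linarith
  set κ : ℝ := 1 / (3 * 2 ^ J) with hκ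
  have hκ0 : 0 < κ := by positivity
  have hκ1 : κ ≤ 1 := by
    rw [hκ, div_le_one (by positivity)]
    linarith
  have hκ3 : 3 * κ = 1 / 2 ^ J := by
    rw [hκ]
    field_simp
  set w : ℕ → ℝ := fun j => 2 ^ (j + 1) / W with hw
  have hw0 : ∀ j, 0 ≤ w j := fun j => by
    rw [hw]
    positivity
  have hwsum : ∑ j ∈ Finset.range J, w j = 1 := by
    rw [hw, ← Finset.sum_div, r3_wsum, ← hW, div_self hWpos.ne']
  set x : ℕ → ℝ := fun i => (i : ℝ) / 1024 ^ J with hx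
  set p : ℕ → ℕ → ℝ := fun i j => if x i ≤ 1 / 2 then x i else x i - 1 / 1024 ^ (j + 1) with hp
  have hL : ∀ j : ℕ, (1:ℝ) / 1024 ^ (j + 1) ≤ 1 / 2 := by
    intro j
    apply one_div_le_one_div_of_le (by norm_num)
    have : (1:ℝ) ≤ 1024 ^ j := one_le_pow₀ (by norm_num)
    rw [pow_succ]
    linarith
  have hLpos : ∀ j : ℕ, (0:ℝ) < 1 / 1024 ^ (j + 1) := fun j => by positivity
  have hxle : ∀ i : Fin (1024 ^ J + 1), 0 ≤ x i ∧ x i ≤ 1 := by
    intro i
    have h1 : (i : ℕ) ≤ 1024 ^ J := Nat.lt_succ_iff.mp i.2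
    have h2 : ((i : ℕ) : ℝ) ≤ 1024 ^ J := by exact_mod_cast h1
    refine ⟨by positivity, ?_⟩
    rw [hx]
    exact (div_le_one (by positivity)).mpr h2
  have hp0 : ∀ (i : Fin (1024 ^ J + 1)) (j : ℕ), 0 ≤ p i j := by
    intro i j
    rw [hp]
    dsimp only
    split_ifs with h
    · exact (hxle i).1
    · have := hL j
      push Not at h
      linarith
  have hp1 : ∀ (i : Fin (1024 ^ J + 1)) (j : ℕ), p i j + 1 / 1024 ^ (j + 1) ≤ 1 := by
    intro i j
    rw [hp]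
    dsimp only
    split_ifs with h
    · have := hL j
      linarith
    · have := (hxle i).2
      linarith
  have hc : 0 ≤ 1 - κ := by linarith
  refine ⟨1024 ^ J + 1, fun i => r3f κ J w (p i), κ, hκ0, ?_, ?_, ?_, ?_, ?_⟩
  · intro i
    unfold r3f
    apply Measurable.const_add
    apply Measurable.const_mul
    apply Finset.measurable_fun_sum
    intro j _
    exact (a4ind_meas _ _).const_mul _
  · intro i y
    unfold r3f
    have : 0 ≤ ∑ j ∈ Finset.range J, w j * 1024 ^ (j + 1) * a4ind (p i j) (1 / 1024 ^ (j + 1)) y :=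
      Finset.sum_nonneg (fun j _ => mul_nonneg (mul_nonneg (hw0 j) (by positivity)) (a4ind_nonneg _ _ _))
    have := mul_nonneg hc this
    linarith
  · intro i y
    unfold r3f
    have : ∑ j ∈ Finset.range J, w j * 1024 ^ (j + 1) * a4ind (p i j) (1 / 1024 ^ (j + 1)) y ≤
        ∑ j ∈ Finset.range J, w j * 1024 ^ J := by
      apply Finset.sum_le_sum
      intro j hj
      rw [Finset.mem_range] at hj
      have h3 : (1024:ℝ) ^ (j + 1) ≤ 1024 ^ J := pow_le_pow_right₀ (by norm_num) hj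
      calc w j * 1024 ^ (j + 1) * a4ind (p i j) (1 / 1024 ^ (j + 1)) y ≤ w j * 1024 ^ (j + 1) * 1 :=
            mul_le_mul_of_nonneg_left (a4ind_le _ _ _) (mul_nonneg (hw0 j) (by positivity))
        _ = w j * 1024 ^ (j + 1) := mul_one _
        _ ≤ _ := mul_le_mul_of_nonneg_left h3 (hw0 j)
    rw [← Finset.sum_mul, hwsum, one_mul] at this
    have h4 := mul_le_mul_of_nonneg_left this hc
    have h5 : (1:ℝ) ≤ 1024 ^ J := one_le_pow₀ (by norm_num)
    nlinarith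
  · intro i
    have h1 := r3f_integral (κ := κ) (J := J) (w := w) (p := p i) (fun j _ => hp0 i j) (fun j _ => hp1 i j)
      (g := fun _ => (1:ℝ)) (by simp)
    simp only [mul_one] at h1
    rw [h1]
    have h2 : ∀ j ∈ Finset.range J, w j * (1024:ℝ) ^ (j + 1) *
        ∫ y in (p i j)..(p i j + 1 / 1024 ^ (j + 1)), (1:ℝ) = w j := by
      intro j _
      rw [intervalIntegral.integral_const]
      simp
    rw [Finset.sum_congr rfl h2, hwsum]
    simp
  · intro x0 hx0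
    have hfl : ⌊(1024:ℝ) ^ J * x0⌋₊ < 1024 ^ J + 1 := by
      rw [Nat.lt_succ_iff]
      have h3 : (⌊(1024:ℝ) ^ J * x0⌋₊ : ℝ) ≤ 1024 ^ J * x0 := Nat.floor_le (mul_nonneg (by positivity) hx0.1)
      have h4 : (1024:ℝ) ^ J * x0 ≤ 1024 ^ J := mul_le_of_le_one_right (by positivity) hx0.2
      exact_mod_cast h3.trans h4
    refine ⟨⟨⌊(1024:ℝ) ^ J * x0⌋₊, hfl⟩, ?_⟩
    set i : Fin (1024 ^ J + 1) := ⟨⌊(1024:ℝ) ^ J * x0⌋₊, hfl⟩ with hi
    have hxi : |x i - x0| ≤ 1 / 1024 ^ J := by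
      have h3 : (⌊(1024:ℝ) ^ J * x0⌋₊ : ℝ) ≤ 1024 ^ J * x0 := Nat.floor_le (mul_nonneg (by positivity) hx0.1)
      have h4 : (1024:ℝ) ^ J * x0 < ⌊(1024:ℝ) ^ J * x0⌋₊ + 1 := Nat.lt_floor_add_one _
      have h5 : x i = (⌊(1024:ℝ) ^ J * x0⌋₊ : ℝ) / 1024 ^ J := rfl
      have h2 : (0:ℝ) < 1024 ^ J := by positivity
      rw [h5, abs_le]
      constructor
      · rw [neg_le_sub_iff_le_add, ← add_div, le_div_iff₀ h2]
        linarith
      · rw [sub_le_iff_le_add, div_le_iff₀ h2, add_mul, div_mul_cancel₀ _ h2.ne']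
        linarith
    intro z hz
    have hρ : 0 < ‖(x0 : ℂ) - z‖ := norm_pos_iff.mpr (sub_ne_zero.mpr hz)
    rw [r3f_integral (fun j _ => hp0 i j) (fun j _ => hp1 i j) (a1_int z 0 1)]
    have h3 := a3_leb hx0 z hz
    set ρ := ‖(x0 : ℂ) - z‖ with hρdef
    have hloss : ∀ j ∈ Finset.range J, w j * (Real.log ρ - loss (ρ * 1024 ^ (j + 1)))
        ≤ w j * (1024:ℝ) ^ (j + 1) * ∫ y in (p i j)..(p i j + 1 / 1024 ^ (j + 1)), Real.log ‖(y : ℂ) - z‖ := by
      intro j hj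
      rw [Finset.mem_range] at hj
      rw [mul_assoc]
      apply mul_le_mul_of_nonneg_left _ (hw0 j)
      have h5 := r1_scale x0 z hz (p i j) (hLpos j) ?_
      · have h6 : (1:ℝ) / (1 / 1024 ^ (j + 1)) = 1024 ^ (j + 1) := by simp
        have h7 : ρ / (1 / 1024 ^ (j + 1)) = ρ * 1024 ^ (j + 1) := by field_simp
        rw [h6, ← hρdef, h7] at h5
        exact h5
      · intro y hy
        have h7 : (1:ℝ) / 1024 ^ J ≤ 1 / 1024 ^ (j + 1) := by
          apply one_div_le_one_div_of_le (by positivity)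
          exact pow_le_pow_right₀ (by norm_num) hj
        have h8 : |y - x i| ≤ 1 / 1024 ^ (j + 1) := by
          have h9 : p i j = if x i ≤ 1 / 2 then x i else x i - 1 / 1024 ^ (j + 1) := rfl
          rw [h9] at hy
          have := hLpos j
          split_ifs at hy with h
          · rw [abs_le]
            constructor <;> linarith [hy.1, hy.2]
          · rw [abs_le]
            constructor <;> linarith [hy.1, hy.2]
        calc |y - x0| = |(y - x i) + (x i - x0)| := by ring_nf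
          _ ≤ |y - x i| + |x i - x0| := abs_add_le _ _
          _ ≤ 2 * (1 / 1024 ^ (j + 1)) := by linarith
    have hsum := Finset.sum_le_sum hloss
    have e1 : ∑ j ∈ Finset.range J, w j * (Real.log ρ - loss (ρ * 1024 ^ (j + 1))) =
        Real.log ρ - (∑ j ∈ Finset.range J, (2:ℝ) ^ (j + 1) * loss (ρ * 1024 ^ (j + 1))) / W := by
      simp only [mul_sub, Finset.sum_sub_distrib]
      rw [← Finset.sum_mul, hwsum, one_mul, Finset.sum_div]
      congr 1
      refine Finset.sum_congr rfl fun j _ => ?_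
      rw [hw]
      ring
    rw [e1] at hsum
    have hs := r2_sum hρ J
    have h10 : (∑ j ∈ Finset.range J, (2:ℝ) ^ (j + 1) * loss (ρ * 1024 ^ (j + 1))) / W ≤ 8 / 2 ^ J := by
      calc (∑ j ∈ Finset.range J, (2:ℝ) ^ (j + 1) * loss (ρ * 1024 ^ (j + 1))) / W ≤ 8 / W :=
            div_le_div_of_nonneg_right hs hWpos.le
        _ ≤ 8 / 2 ^ J := div_le_div_of_nonneg_left (by norm_num) (by positivity) hWge
    have h11 := mul_le_mul_of_nonneg_left hsum hc
    have h12 := mul_le_mul_of_nonneg_left h3 hκ0.le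
    have h14 : (1 - κ) * ((∑ j ∈ Finset.range J, (2:ℝ) ^ (j + 1) * loss (ρ * 1024 ^ (j + 1))) / W) ≤ 8 / 2 ^ J := by
      refine (mul_le_mul_of_nonneg_left h10 hc).trans ?_
      apply mul_le_of_le_one_left (by positivity)
      linarith
    have h15 : (9:ℝ) / 2 ^ J = 1 / 2 ^ J + 8 / 2 ^ J := by ring
    rw [h15, ← hκ3]
    nlinarith

end Pool.Agent.Lib.H32R
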