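import Pool.Agent.Lib.H32R.Defs
import Pool.Agent.Lib.H32P.B8b
import Pool.Agent.Lib.H32P.B1

/-!
# Chunk R5 (S): good shifts for one polynomial (copy of the last proof of `H32P.B8b`, finished)

In `H32P.b8b_G` the hypothesis `Adm Y c₁` is used only for the polynomial `G`. Copy that proof.
-/

namespace Pool.Agent.Lib.H32R

open Polynomial MeasureTheory Pool.Agent.Lib.H32P

variable {Y : ℝ → ℝ} {α : ℝ}

theorem r5_G (hY : Quant Y α) {c₁ : ℝ} {n : ℕ} (hA : AdmN Y c₁ n) (G : ℤ[X]) (hG : G ≠ 0) (hGn : G.natDegree ≤ n) (r : ℕ) :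
    ∃ s ∈ Set.Icc (0:ℝ) 1, Real.exp (-(c₁ * r * G.natDegree)) ≤ ∏ a : Fin r, |aeval (pt Y r s a) G| := by
  have hinj : Function.Injective (algebraMap ℤ ℝ) := by
    rw [algebraMap_int_eq]; exact Int.cast_injective
  have hroots : Set.Finite {x : ℝ | aeval x G = 0} := by
    have h0 : G.map (algebraMap ℤ ℝ) ≠ 0 := (Polynomial.map_ne_zero_iff hinj).2 hG
    refine (finite_setOfPred_isRoot h0).subset ?_
    intro x hx
    show (G.map (algebraMap ℤ ℝ)).eval x = 0
    rw [eval_map_algebraMap]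
    exact hx
  set Z : Set ℝ := ⋃ i ∈ Finset.range r, {s : ℝ | aeval (pt Y r s i) G = 0} with hZ
  have hZ0 : volume Z = 0 := by
    apply Set.Finite.measure_zero
    apply Set.Finite.biUnion (Finset.finite_toSet _)
    intro i hi
    have hr : (r:ℝ) ≠ 0 := by
      have : 0 < r := lt_of_le_of_lt (Nat.zero_le i) (Finset.mem_range.1 hi)
      have : (0:ℝ) < r := by exact_mod_cast this
      exact this.ne'
    have h1 : {s : ℝ | aeval (pt Y r s i) G = 0} = (fun s => pt Y r s i) ⁻¹' {x : ℝ | aeval x G = 0} := rfl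
    rw [h1]
    apply hroots.preimage
    intro s _ s' _ hss
    have h2 := (b1_strictMono hY).injective hss
    rw [div_left_inj' hr] at h2
    linarith
  obtain ⟨s, hs, hsZ, h⟩ := b8_avg (b8b_int hY G hG) r hZ0
  refine ⟨s, hs, ?_⟩
  have hne : ∀ i : Fin r, 0 < |aeval (pt Y r s i) G| := by
    intro i
    rw [abs_pos]
    intro h0
    apply hsZ
    rw [hZ]
    simp only [Set.mem_iUnion]
    exact ⟨i, Finset.mem_range.2 i.2, h0⟩
  have h1 : ∏ a : Fin r, |aeval (pt Y r s a) G| = Real.exp (∑ a : Fin r, Real.log |aeval (pt Y r s a) G|) := by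
    rw [Real.exp_sum]
    apply Finset.prod_congr rfl
    intro i _
    rw [Real.exp_log (hne i)]
  rw [h1]
  apply Real.exp_le_exp.2
  rw [Fin.sum_univ_eq_sum_range (fun i => Real.log |aeval (pt Y r s i) G|) r]
  refine le_trans ?_ h
  have h2 := mul_le_mul_of_nonneg_left (hA G hG hGn) (Nat.cast_nonneg (α := ℝ) r)
  refine le_trans (le_of_eq ?_) h2
  ring

end Pool.Agent.Lib.H32R
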