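import Pool.Agent.Lib.H32R.Defs
import Pool.Agent.Lib.H32P.C2
import Pool.Agent.Lib.H32P.C3

/-!
# Chunk R6 (M): the energy inequality for a fixed degree (compare `H32P.C3`, finished)

Take `P` from `c2_poly` with `M = n`: `P ≠ 0`, `natDegree P ≤ n - 1`. As in `H32P.C3`: `-(c₁ n) ≤ -(c₁ natDegree P) ≤ ∫ log |P(Y u)| du ≤ log (n K^6) + n En/2`. So `-(n (2 c₁ + En)) ≤ 2 log (n K^6)`. Exponentiate.
-/

namespace Pool.Agent.Lib.H32R

open Polynomial MeasureTheory Pool.Agent.Lib.H32P

variable {Y : ℝ → ℝ} {α : ℝ}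

theorem r6_step (hY : Quant Y α) {c : ℝ} (hc : 0 ≤ c) {M : ℕ} (hM : 1 ≤ M) (hA : AdmN Y c M) :
    -(c * M) ≤ Real.log (M * K α M ^ 6) + M * (En Y / 2) := by
  obtain ⟨P, hP0, hdeg, hP⟩ := c2_poly hY hM
  have hM0 : (0:ℝ) < M := by exact_mod_cast hM
  have hK : 0 < K α M := by
    unfold K
    have := hY.pos
    positivity
  have hMK : (0:ℝ) < M * K α M ^ 6 := by positivity
  have hnat : P.natDegree ≤ M := (natDegree_lt_iff_degree_lt hP0).2 hdeg |>.le
  have h1 := hA P hP0 hnat
  have h2 : -(c * M) ≤ -(c * P.natDegree) := by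
    have : (P.natDegree : ℝ) ≤ M := by exact_mod_cast hnat
    have := mul_le_mul_of_nonneg_left this hc
    linarith
  have hint1 := b8b_int hY P hP0
  have hint2 : IntervalIntegrable (fun u => Real.log (M * K α M ^ 6) + M * (U Y (Y u) - En Y / 2)) volume 0 1 :=
    (intervalIntegrable_const).add (((b7_int hY).sub intervalIntegrable_const).const_mul _)
  have h3 : ∫ u in (0:ℝ)..1, Real.log |aeval (Y u) P| ≤
      ∫ u in (0:ℝ)..1, (Real.log (M * K α M ^ 6) + M * (U Y (Y u) - En Y / 2)) := by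
    refine intervalIntegral.integral_mono_ae_restrict (by norm_num) hint1 hint2 ?_
    have hae : ∀ᵐ u ∂(volume : Measure ℝ), u ∉ {u : ℝ | aeval (Y u) P = 0} := by
      have h0 : volume {u : ℝ | aeval (Y u) P = 0} = 0 := (c3_finite hY hP0).measure_zero _
      exact measure_eq_zero_iff_ae_notMem.1 h0
    rw [Filter.EventuallyLE, ae_restrict_iff' measurableSet_Icc]
    filter_upwards [hae] with u hu hu1
    have hy := c3_mem hY hu1
    have h4 := hP _ hy
    have h5 : 0 < |aeval (Y u) P| := abs_pos.2 hu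
    have h6 := Real.log_le_log h5 h4
    rw [Real.log_mul hMK.ne' (Real.exp_ne_zero _), Real.log_exp] at h6
    exact h6
  have h4 : ∫ u in (0:ℝ)..1, (Real.log (M * K α M ^ 6) + M * (U Y (Y u) - En Y / 2)) =
      Real.log (M * K α M ^ 6) + M * (En Y / 2) := by
    rw [intervalIntegral.integral_add intervalIntegrable_const
      (((b7_int hY).sub intervalIntegrable_const).const_mul _), intervalIntegral.integral_const_mul,
      intervalIntegral.integral_sub (b7_int hY) intervalIntegrable_const]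
    simp only [intervalIntegral.integral_const, sub_zero, one_smul]
    have h5 : ∫ u in (0:ℝ)..1, U Y (Y u) = En Y := rfl
    rw [h5]
    ring
  linarith

theorem r6_energy (hY : Quant Y α) {c₁ : ℝ} (hc : 0 ≤ c₁) {n : ℕ} (hn : 1 ≤ n) (hA : AdmN Y c₁ n) :
    Real.exp (-(n * (2 * c₁ + En Y))) ≤ (n * K α n ^ 6) ^ 2 := by
  have h := r6_step hY hc hn hA
  have hn0 : (0:ℝ) < n := by exact_mod_cast hn
  have hK : 0 < K α n := by
    unfold K
    have := hY.pos
    positivity
  have hMK : (0:ℝ) < n * K α n ^ 6 := by positivity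
  have h2 : -(n * (2 * c₁ + En Y)) ≤ 2 * Real.log (n * K α n ^ 6) := by linarith
  refine (Real.exp_le_exp.2 h2).trans (le_of_eq ?_)
  rw [two_mul, Real.exp_add, Real.exp_log hMK, pow_two]

end Pool.Agent.Lib.H32R
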