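import Pool.Agent.Lib.H32R.R5
import Pool.Agent.Lib.H32R.R6
import Pool.Agent.Lib.H32P.D4

/-!
# Chunk R7 (M): lower bound for dual vectors, odd dimension (copy of `H32P.D4`, finished)

Let `n = 2m - 1`. As in `H32P.d4_odd` (with `r5_G` instead of `b8b_G`; `deg G ≤ k ≤ m ≤ n`): `Θ n κ^14 ≥ exp (n (c - c₁) - c₁ + k (2 c₁ + En))`, `1 ≤ k ≤ m ≤ n`. Now `2 c₁ + En` may be negative, but
`exp (k (2 c₁ + En)) ≥ 1/(n K^6)^2`: if `2 c₁ + En ≥ 0` it is `≥ 1`, otherwise it is `≥ exp (n (2 c₁ + En))` and `r6_energy` applies. So `exp (n (c - c₁) - c₁) ≤ Θ n K^14 (n K^6)^2`.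
-/

namespace Pool.Agent.Lib.H32R

open Polynomial MeasureTheory Pool.Agent.Lib.H32P

variable {Y : ℝ → ℝ} {α : ℝ}

theorem r7_odd (hY : Quant Y α) {c₁ : ℝ} (hc : 0 ≤ c₁) {m : ℕ} (hm : 1 ≤ m) (hA : AdmN Y c₁ (2 * m - 1))
    (c : ℝ) (l : ℕ → ℤ) (hl : ∃ i < 2 * m - 1, l i ≠ 0) {Θ : ℝ}
    (h : ∀ u : ℝ[X], u.degree < (2 * m - 1 : ℕ) →
      (∀ t ∈ Set.Icc (0:ℝ) 1, |u.eval t| ≤ Real.exp ((2 * m - 1 : ℕ) * (c + U Y t))) → |Lf l (2 * m - 1) u| ≤ Θ) :
    Real.exp ((2 * m - 1 : ℕ) * (c - c₁) - c₁) ≤ Θ * ((2 * m - 1 : ℕ) ^ 3 * K α (2 * m - 1) ^ 26) := by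
  obtain ⟨k, r, G, hkr, hk, hG, hGk, hgram⟩ := d23_gram hm l hl
  obtain ⟨s, hs, hnode⟩ := b8b_node hY k
  obtain ⟨s', hs', hGG⟩ := r5_G hY hA G hG (by omega) r
  obtain ⟨n, hn⟩ : ∃ n : ℕ, n = 2 * m - 1 := ⟨_, rfl⟩
  rw [← hn] at h hgram hA ⊢
  have hn1 : 1 ≤ n := by omega
  have hmn : m ≤ n := by omega
  set z : Fin k → ℝ := fun i => pt Y k s i with hz
  set y : Fin r → ℝ := fun a => pt Y r s' a with hy
  have hyinj : Function.Injective y := by
    intro a b hab
    by_contra hne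
    have hr1 : 1 ≤ r := by
      have := a.2
      omega
    exact b1_pt_ne hY hr1 s' (fun h0 => hne (Fin.ext h0)) hab
  have hdet := hgram y z hyinj
  set κ := K α n with hκ
  have hκ1 : 1 ≤ κ := b1_K hY hn1
  have hκ0 : 0 < κ := by linarith
  have hKm : K α m ≤ κ := b1_K_mono hY hmn
  have hKm0 : 0 ≤ K α m := b1_K_nonneg hY m
  set v : Fin k → ℝ[X] := fun i => mA y * mh z i with hv
  have hvt : ∀ i, ∀ t ∈ Set.Icc (0:ℝ) 1, |(v i).eval t| ≤ κ ^ 7 * Real.exp (m * U Y t) := by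
    intro i t ht
    have h1 := b4b_mA hY hm (show r ≤ m by omega) hs' ht
    have h2 := b4b_mh hY (show k ≤ m by omega) hs ht i
    rw [hv, eval_mul, abs_mul]
    calc |eval t (mA y)| * |eval t (mh z i)|
        ≤ (K α m ^ 3 * Real.exp (r * U Y t)) * (K α m ^ 4 * Real.exp (k * U Y t)) :=
          mul_le_mul h1 h2 (abs_nonneg _) (by positivity)
      _ = K α m ^ 7 * Real.exp (m * U Y t) := by
          have h3 : Real.exp (m * U Y t) = Real.exp (r * U Y t) * Real.exp (k * U Y t) := by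
            rw [← Real.exp_add, ← hkr]
            push_cast
            ring_nf
          rw [h3]
          ring
      _ ≤ κ ^ 7 * Real.exp (m * U Y t) := by
          gcongr
  have hvv : ∀ i j, ∀ t ∈ Set.Icc (0:ℝ) 1, |(v i * v j).eval t| ≤ κ ^ 14 * Real.exp (n * U Y t) := by
    intro i j t ht
    have h1 := hvt i t ht
    have h2 := hvt j t ht
    have hU := b7_nonpos hY ht
    rw [eval_mul, abs_mul]
    calc |eval t (v i)| * |eval t (v j)|
        ≤ (κ ^ 7 * Real.exp (m * U Y t)) * (κ ^ 7 * Real.exp (m * U Y t)) :=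
          mul_le_mul h1 h2 (abs_nonneg _) (by positivity)
      _ = κ ^ 14 * Real.exp ((m : ℝ) * U Y t + m * U Y t) := by
          rw [Real.exp_add]
          ring
      _ ≤ κ ^ 14 * Real.exp (n * U Y t) := by
          refine mul_le_mul_of_nonneg_left (Real.exp_le_exp.2 ?_) (by positivity)
          have h3 : (n : ℝ) ≤ m + m := by
            exact_mod_cast (show n ≤ m + m by omega)
          nlinarith
  have hvd : ∀ i j, (v i * v j).degree < (n : ℕ) := by
    intro i j
    have h1 : (v i).Monic := (d23_mA_monic y).mul (d23_mh_monic z i)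
    have h2 : (v j).Monic := (d23_mA_monic y).mul (d23_mh_monic z j)
    have h3 : ∀ i, (v i).natDegree = r + (k - 1) := by
      intro i
      rw [hv]
      change (mA y * mh z i).natDegree = _
      rw [(d23_mA_monic y).natDegree_mul (d23_mh_monic z i), d23_mA_natDegree, d23_mh_natDegree]
    rw [← natDegree_lt_iff_degree_lt (h1.mul h2).ne_zero, h1.natDegree_mul h2, h3, h3]
    omega
  set B : ℝ := Θ * κ ^ 14 * Real.exp (-(n * c)) with hB
  have hLf : ∀ i j, |Lf l n (v i * v j)| ≤ B := by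
    intro i j
    have hcoef : 0 < Real.exp (n * c) / κ ^ 14 := by positivity
    have h1 := h (C (Real.exp (n * c) / κ ^ 14) * (v i * v j)) ?_ ?_
    · rw [d0_smul, abs_mul, abs_of_pos hcoef] at h1
      rw [hB, Real.exp_neg]
      have h2 : |Lf l n (v i * v j)| ≤ Θ / (Real.exp (n * c) / κ ^ 14) := by
        rw [le_div_iff₀ hcoef, mul_comm]
        exact h1
      refine h2.trans (le_of_eq ?_)
      field_simp
    · rw [degree_C_mul hcoef.ne']
      exact hvd i j
    · intro t ht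
      rw [eval_mul, eval_C, abs_mul, abs_of_pos hcoef]
      have h2 := hvv i j t ht
      calc Real.exp (n * c) / κ ^ 14 * |eval t (v i * v j)|
          ≤ Real.exp (n * c) / κ ^ 14 * (κ ^ 14 * Real.exp (n * U Y t)) :=
            mul_le_mul_of_nonneg_left h2 hcoef.le
        _ = Real.exp (n * (c + U Y t)) := by
            rw [mul_add, Real.exp_add]
            field_simp
  have hk0 : 0 < k := hk
  have hB0 : 0 ≤ B := (abs_nonneg _).trans (hLf ⟨0, hk0⟩ ⟨0, hk0⟩)
  have hdet2 : |(Matrix.of fun i j : Fin k => Lf l n (mA y * mh z i * (mA y * mh z j))).det| ≤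
      (n * B) ^ k := by
    have h1 := Matrix.det_le (A := Matrix.of fun i j : Fin k => Lf l n (mA y * mh z i * (mA y * mh z j)))
      (abv := AbsoluteValue.abs) (x := B) (fun i j => hLf i j)
    rw [Fintype.card_fin] at h1
    refine le_trans h1 ?_
    rw [nsmul_eq_mul, mul_pow (n : ℝ) B]
    refine mul_le_mul_of_nonneg_right ?_ (pow_nonneg hB0 k)
    have h2 : k.factorial ≤ n ^ k :=
      (Nat.factorial_le_pow k).trans (Nat.pow_le_pow_left (by omega) k)
    exact_mod_cast h2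
  have hlow : Real.exp (k * (k * En Y - 2 * c₁ * r)) ≤ (n * B) ^ k := by
    refine le_trans ?_ (hdet.trans hdet2)
    have h1 : (∏ a, (aeval (y a) G) ^ 2 : ℝ) = (∏ a, |aeval (y a) G|) ^ 2 := by
      rw [← Finset.prod_pow]
      exact Finset.prod_congr rfl fun a _ => (sq_abs _).symm
    rw [h1]
    have h2 : Real.exp (-(c₁ * r * k)) ≤ ∏ a, |aeval (y a) G| := by
      refine le_trans (Real.exp_le_exp.2 ?_) hGG
      have h3 : (G.natDegree : ℝ) ≤ k := by exact_mod_cast hGk
      have h4 : 0 ≤ c₁ * r := by positivity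
      have := mul_le_mul_of_nonneg_left h3 h4
      linarith
    have h3 : Real.exp (k * (k * En Y - 2 * c₁ * r)) =
        Real.exp (k * (k * En Y)) * Real.exp (-(c₁ * r * k)) ^ 2 := by
      rw [← Real.exp_nat_mul, ← Real.exp_add]
      push_cast
      ring_nf
    rw [h3]
    exact mul_le_mul hnode (pow_le_pow_left₀ (Real.exp_pos _).le h2 2) (by positivity)
      ((Real.exp_pos _).le.trans hnode)
  have hroot : Real.exp (k * En Y - 2 * c₁ * r) ≤ n * B := by
    rw [Real.exp_nat_mul] at hlow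
    exact le_of_pow_le_pow_left₀ (n := k) (by omega) (by positivity) hlow
  have h1 : Θ * (n ^ 3 * κ ^ 26) = n * B * Real.exp (n * c) * (n * κ ^ 6) ^ 2 := by
    rw [hB, Real.exp_neg]
    field_simp
  rw [h1]
  have hnB : 0 ≤ n * B := by positivity
  have hen := r6_energy hY hc hn1 hA
  rw [← hκ] at hen
  have h2 : (r : ℝ) = m - k := by
    have : (k : ℝ) + r = m := by exact_mod_cast hkr
    linarith
  have h3 : (n : ℝ) = 2 * m - 1 := by
    have : n + 1 = 2 * m := by omega
    have h4 : (n : ℝ) + 1 = 2 * m := by exact_mod_cast this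
    linarith
  -- the factor `exp (- k (2 c₁ + En))`
  have hfac : Real.exp (-(k * (2 * c₁ + En Y))) ≤ (n * κ ^ 6) ^ 2 := by
    rcases le_or_gt 0 (2 * c₁ + En Y) with h5 | h5
    · have h6 : Real.exp (-(k * (2 * c₁ + En Y))) ≤ 1 := by
        apply Real.exp_le_one_iff.2
        have : (0:ℝ) ≤ k * (2 * c₁ + En Y) := by positivity
        linarith
      refine h6.trans ?_
      have hn1' : (1:ℝ) ≤ n := by exact_mod_cast hn1
      have h7 : (1:ℝ) ≤ n * κ ^ 6 := by
        have h8 : 1 ≤ κ ^ 6 := one_le_pow₀ hκ1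
        nlinarith
      exact one_le_pow₀ h7
    · refine le_trans (Real.exp_le_exp.2 ?_) hen
      have h6 : (k : ℝ) ≤ n := by exact_mod_cast (show k ≤ n by omega)
      nlinarith
  have h5 : Real.exp (n * (c - c₁) - c₁) =
      Real.exp (k * En Y - 2 * c₁ * r) * Real.exp (n * c) * Real.exp (-(k * (2 * c₁ + En Y))) := by
    rw [← Real.exp_add, ← Real.exp_add]
    congr 1
    rw [h2]
    linear_combination (-c₁) * h3
  rw [h5]
  exact mul_le_mul (mul_le_mul_of_nonneg_right hroot (Real.exp_pos _).le) hfac (Real.exp_pos _).le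
    (mul_nonneg hnB (Real.exp_pos _).le)

end Pool.Agent.Lib.H32R
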