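import Pool.Agent.Lib.H32P.C1

/-!
# Chunk T1 (M): Minkowski's bound for the dual of a lower right block of a triangular matrix

Let `d = n - i` (so `i + e < n` for `e < d`), `B` the `d × d` block of `R` with rows and columns `≥ i` (upper triangular, `det B = ∏ R_ll > 0`), and `s = (det B)^(-1/d)`. `c1_minkowski` for the matrix `(B⁻¹)ᵀ` (determinant `1/det B = s^d`) gives an
integer vector `y ≠ 0` with `|((B⁻¹)ᵀ y)_l| ≤ s`. Let `w = (0, y) ∈ ℤ^n`. As `R = fromBlocks R₁ S 0 B`, `(R⁻¹)ᵀ w = (0, (B⁻¹)ᵀ y)` (check: `Rᵀ (0, (B⁻¹)ᵀ y) = (0, Bᵀ (B⁻¹)ᵀ y) = w`, by triangularity, and `Rᵀ` is invertible). So by the hypothesis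
`lam² ≤ d s²`, i.e. `log lam ≤ log d / 2 - (∑_{l ≥ i} log R_ll)/d`. (Compare `H32P.E6`, finished, for the block computations.)
-/

namespace Pool.Agent.Lib.H32R

open Pool.Agent.Lib.H32P

theorem t1_dualblock {n : ℕ} {R : Matrix (Fin n) (Fin n) ℝ} (htri : ∀ i j : Fin n, j < i → R i j = 0)
    (hpos : ∀ i, 0 < R i i) {lam : ℝ} (hlam : 0 < lam)
    (h : ∀ w : Fin n → ℤ, w ≠ 0 → lam ^ 2 ≤ ∑ l, ((R⁻¹).transpose.mulVec (fun j => (w j : ℝ)) l) ^ 2)
    (r : ℕ → ℝ) (hr : ∀ i : Fin n, r i = Real.log (R i i)) {i e : ℕ} (hi : i + e + 1 = n) :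
    Real.log lam ≤ Real.log (e + 1) / 2 - (∑ f ∈ Finset.range (e + 1), r (i + f)) / (e + 1) := by
  classical
  let emb : Fin (e + 1) → Fin n := fun a => ⟨i + a, by have := a.2; omega⟩
  have hemb : Function.Injective emb := by
    intro a b hab
    have h1 : i + (a : ℕ) = i + (b : ℕ) := congrArg Fin.val hab
    exact Fin.ext (by omega)
  set B : Matrix (Fin (e + 1)) (Fin (e + 1)) ℝ := Matrix.of fun a b => R (emb a) (emb b) with hB
  have hBpp : ∀ a b, B a b = R (emb a) (emb b) := fun a b => rfl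
  have htri' : B.BlockTriangular id := by
    intro a b hab
    rw [hBpp]
    apply htri
    rw [Fin.lt_def]
    have : (b : ℕ) < (a : ℕ) := hab
    show i + (b : ℕ) < i + (a : ℕ)
    omega
  have hdet : B.det = ∏ a, R (emb a) (emb a) := Matrix.det_of_isUpperTriangular htri'
  have hpos' : ∀ a, 0 < R (emb a) (emb a) := fun a => hpos _
  have hdetpos : 0 < B.det := by
    rw [hdet]
    exact Finset.prod_pos fun a _ => hpos' a
  set sr : ℝ := ∑ f ∈ Finset.range (e + 1), r (i + f) with hsr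
  have hsr2 : sr = Real.log B.det := by
    rw [hdet, Real.log_prod fun a _ => (hpos' a).ne', hsr, ← Fin.sum_univ_eq_sum_range (fun f => r (i + f))]
    refine Finset.sum_congr rfl fun a _ => ?_
    exact hr (emb a)
  set s : ℝ := Real.exp (-(sr / (e + 1))) with hs
  have hs0 : 0 < s := Real.exp_pos _
  have hsd : s ^ (e + 1) = B.det⁻¹ := by
    rw [hs, ← Real.exp_nat_mul]
    have : ((e + 1 : ℕ) : ℝ) * (-(sr / (e + 1))) = -sr := by
      push_cast
      field_simp
    rw [this, hsr2, Real.exp_neg, Real.exp_log hdetpos]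
  have hBt : (B⁻¹).transpose.det = B.det⁻¹ := by
    rw [Matrix.det_transpose, Matrix.det_nonsing_inv, Ring.inverse_eq_inv']
  obtain ⟨y, hy0, hy⟩ := c1_minkowski (d := e + 1) (by omega) (B⁻¹).transpose
    (by rw [hBt]; exact (inv_pos.2 hdetpos).ne') hs0
    (by rw [hsd, hBt, abs_of_pos (inv_pos.2 hdetpos)])
  set w : Fin n → ℤ := Function.extend emb y (fun _ => 0) with hw
  have hwe : ∀ a, w (emb a) = y a := fun a => hemb.extend_apply _ _ a
  have hw0 : ∀ j, (¬ ∃ a, emb a = j) → w j = 0 := fun j hj => Function.extend_apply' _ _ _ hj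
  set u' : Fin (e + 1) → ℝ := (B⁻¹).transpose.mulVec (fun j => (y j : ℝ)) with hu'
  set u : Fin n → ℝ := Function.extend emb u' (fun _ => 0) with hu
  have hue : ∀ a, u (emb a) = u' a := fun a => hemb.extend_apply _ _ a
  have hu0 : ∀ j, (¬ ∃ a, emb a = j) → u j = 0 := fun j hj => Function.extend_apply' _ _ _ hj
  have hsum : ∀ g : Fin n → ℝ, ∑ l, g l * u l = ∑ a, g (emb a) * u' a := by
    intro g
    have h1 : ∑ j ∈ Finset.univ.map ⟨emb, hemb⟩, g j * u j = ∑ j, g j * u j := by
      apply Finset.sum_subset (Finset.subset_univ _)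
      intro j _ hj
      rw [hu0 j, mul_zero]
      rintro ⟨a, rfl⟩
      exact hj (Finset.mem_map.2 ⟨a, Finset.mem_univ _, rfl⟩)
    rw [← h1, Finset.sum_map]
    refine Finset.sum_congr rfl fun b _ => ?_
    show g (emb b) * u (emb b) = _
    rw [hue]
  have hBunit : IsUnit B.det := isUnit_iff_ne_zero.2 hdetpos.ne'
  have hBu : B.transpose.mulVec u' = fun j => (y j : ℝ) := by
    rw [hu', Matrix.mulVec_mulVec, ← Matrix.transpose_mul, Matrix.nonsing_inv_mul _ hBunit,
      Matrix.transpose_one, Matrix.one_mulVec]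
  have hRu : R.transpose.mulVec u = fun j => (w j : ℝ) := by
    funext j
    have h1 : R.transpose.mulVec u j = ∑ l, R l j * u l := rfl
    rw [h1, hsum (fun l => R l j)]
    by_cases hj : ∃ b, emb b = j
    · obtain ⟨b, rfl⟩ := hj
      rw [hwe]
      have h2 := congrFun hBu b
      rw [← h2]
      rfl
    · rw [hw0 j hj, Int.cast_zero]
      apply Finset.sum_eq_zero
      intro a _
      rw [htri (emb a) j, zero_mul]
      rw [Fin.lt_def]
      show (j : ℕ) < i + (a : ℕ)
      by_contra hcon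
      apply hj
      have hj2 := j.2
      refine ⟨⟨(j : ℕ) - i, by omega⟩, ?_⟩
      apply Fin.ext
      show i + ((j : ℕ) - i) = (j : ℕ)
      omega
  have hRtri : R.BlockTriangular id := fun a b hab => htri a b hab
  have hRdet : R.det = ∏ a, R a a := Matrix.det_of_isUpperTriangular hRtri
  have hRunit : IsUnit R.det := by
    rw [hRdet]
    exact isUnit_iff_ne_zero.2 (Finset.prod_pos fun a _ => hpos a).ne'
  have hinv : (R⁻¹).transpose.mulVec (fun j => (w j : ℝ)) = u := by
    rw [← hRu, Matrix.mulVec_mulVec, ← Matrix.transpose_mul, Matrix.mul_nonsing_inv _ hRunit,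
      Matrix.transpose_one, Matrix.one_mulVec]
  have hw1 : w ≠ 0 := by
    intro h0
    apply hy0
    funext a
    rw [← hwe a, h0]
    rfl
  have hmin := h w hw1
  rw [hinv] at hmin
  have hsq : ∑ l, u l ^ 2 = ∑ a, u' a ^ 2 := by
    have h1 := hsum u
    simp only [hue] at h1
    simpa only [sq] using h1
  rw [hsq] at hmin
  have hbound : ∑ a, u' a ^ 2 ≤ (e + 1) * s ^ 2 := by
    calc ∑ a, u' a ^ 2 ≤ ∑ _a : Fin (e + 1), s ^ 2 := by
          refine Finset.sum_le_sum fun a _ => ?_
          rw [← sq_abs]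
          exact pow_le_pow_left₀ (abs_nonneg _) (hy a) 2
      _ = (e + 1) * s ^ 2 := by
          rw [Finset.sum_const, Finset.card_univ, Fintype.card_fin, nsmul_eq_mul]
          push_cast
          ring
  have hfin := hmin.trans hbound
  have hlog := Real.log_le_log (by positivity) hfin
  rw [Real.log_pow, Real.log_mul (by positivity) (by positivity), Real.log_pow, hs,
    Real.log_exp] at hlog
  push_cast at hlog
  linarith

end Pool.Agent.Lib.H32R
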